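import Pool.Agent.MP_542436_nt.Sq.Pre

set_option autoImplicit false

namespace Pool.Agent.MP_542436_nt.Sq

open Polynomial H5

/-- All the modules. -/
structure All7 : Prop extends All where
  sq6 : Sp.SqStmt 6 (1999 / 1000) (2001 / 1000)
  sq7 : Sp.SqStmt 7 (1999 / 1000) (2501 / 1000)

/-- A normalised family of components. -/
structure Fm (n : ℕ) where
  F : Fin (n + 1) → MP
  q : Fin (n + 1) → ℕ
  r : Fin (n + 1) → ℕ
  irr : ∀ i, Irreducible (F i)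
  ne : ∀ i j, i ≠ j → ¬ Associated (F i) (F j)
  hom : ∀ i, BiHom (F i) (q i) (r i)
  h : ∀ i, q i + r i ≤ 5 ∨ (q i = 0 ∧ r i ≤ 7) ∨ (r i = 0 ∧ q i ≤ 7) ∨
    (i = 0 ∧ q i + r i ≤ 8 ∧ q i ≤ 6 ∧ r i ≤ 6)
  nz : ∀ i, ev (F i) (1, 0) (1, 0) ≠ 0

theorem Fm.le8 {n : ℕ} (P : Fm n) (i : Fin (n + 1)) : P.q i + P.r i ≤ 8 := by
  have := P.h i
  omega

theorem Fm.bound {n : ℕ} (H : All7) (P : Fm n) : ∃ K : ℕ, 1 ≤ K ∧ ∀ i (A : ℕ) (s : ℤ × ℤ),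
    |s.1| ≤ A → |s.2| ≤ A → (∀ k, |(gt (P.F i) s).coeff k| ≤ (K : ℤ) * (A : ℤ) ^ P.q i) ∧
      ∀ (B : ℕ) (t : ℤ × ℤ), |t.1| ≤ B → |t.2| ≤ B →
        |ev (P.F i) s t| ≤ (K : ℤ) * (A : ℤ) ^ P.q i * (B : ℤ) ^ P.r i := by
  choose K hK1 hK using fun i => (H.basic (P.F i) (P.q i) (P.r i) (P.hom i)).2.2.2
  have hle : ∀ i, (K i : ℤ) ≤ (∑ j, K j : ℕ) := fun i => by
    exact_mod_cast Finset.single_le_sum (fun j _ => Nat.zero_le (K j)) (Finset.mem_univ i)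
  refine ⟨∑ j, K j, (hK1 0).trans (by exact_mod_cast hle 0), fun i A s h1 h2 => ⟨fun k => ?_,
    fun B t h3 h4 => ?_⟩⟩
  · exact ((hK i A s h1 h2).1 k).trans (by have := hle i; gcongr)
  · exact ((hK i A s h1 h2).2 B t h3 h4).trans (by have := hle i; gcongr)

theorem Fm.dir {n : ℕ} (H : All7) (P : Fm n) : ∃ (Z : Finset (ℤ × ℤ)) (c R B1 : ℕ), 1 ≤ R ∧
    ∀ s : ℤ × ℤ, s ∉ Z → (∀ i, ev (P.F i) s (1, 0) ≠ 0) → ∀ B : ℕ, B1 ≤ B → s ∈ box B →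
      ∃ D : ℤ, D ≠ 0 ∧ (∀ i, 1 ≤ P.r i → Adm (P.r i) c R B (gt (P.F i) s) D) ∧
        (∀ i, ev (P.F i) s (1, 0) ∣ D) ∧
        ∀ i j, i ≠ j → 1 ≤ P.r i → ∃ U V : ℤ[X], U * gt (P.F i) s + V * gt (P.F j) s = C D := by
  classical
  have h1 : ∀ i, ∃ Z : Finset (ℤ × ℤ), ∀ s : ℤ × ℤ, Int.gcd s.1 s.2 = 1 → s ∉ Z → 1 ≤ P.r i →
      ((gt (P.F i) s).map (Int.castRingHom ℚ)).Separable := by
    intro i
    by_cases hi : 1 ≤ P.r i
    · obtain ⟨Z, hZ⟩ := H.sep _ _ _ (P.irr i) (P.hom i) hi (P.nz i)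
      exact ⟨Z, fun s hs hsZ _ => (hZ s hs hsZ).2⟩
    · exact ⟨∅, fun s _ _ h => absurd h hi⟩
  have h2 : ∀ ij : Fin (n + 1) × Fin (n + 1), ∃ Z : Finset (ℤ × ℤ), ∀ s : ℤ × ℤ,
      Int.gcd s.1 s.2 = 1 → s ∉ Z → ij.1 ≠ ij.2 →
      IsCoprime ((gt (P.F ij.1) s).map (Int.castRingHom ℚ))
        ((gt (P.F ij.2) s).map (Int.castRingHom ℚ)) := by
    rintro ⟨i, j⟩
    by_cases hij : i = j
    · exact ⟨∅, fun s _ _ h => absurd hij h⟩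
    · obtain ⟨Z, hZ⟩ := H.cop _ _ _ _ _ _ (P.irr i) (P.irr j) (P.ne i j hij) (P.hom i) (P.hom j)
      exact ⟨Z, fun s hs hsZ _ => hZ s hs hsZ⟩
  have h3 : ∀ i, ∃ R : ℕ, 1 ≤ R ∧ ∀ s : ℤ × ℤ, Int.gcd s.1 s.2 = 1 → 1 ≤ P.r i →
      ∀ κ : ℤ, (∀ k, κ ∣ (gt (P.F i) s).coeff k) → κ ∣ (R : ℤ) := by
    intro i
    by_cases hi : 1 ≤ P.r i
    · obtain ⟨R, hR, h⟩ := H.cont _ _ _ (P.irr i) (P.hom i) hi (P.nz i)
      exact ⟨R, hR, fun s hs _ => h s hs⟩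
    · exact ⟨1, le_rfl, fun s _ h => absurd h hi⟩
  choose Z1 hZ1 using h1
  choose Z2 hZ2 using h2
  choose R hR1 hR using h3
  obtain ⟨K, hK1, hK⟩ := P.bound H
  refine ⟨Finset.univ.biUnion Z1 ∪ Finset.univ.biUnion Z2, 161 * ((n + 1) + (n + 1) * (n + 1)), ∏ i, R i,
    max (max K 8) (2 * 8).factorial, Finset.one_le_prod' (fun i _ => hR1 i), ?_⟩
  intro s hsZ hlc B hB hs
  obtain ⟨hs1, hs2, hs3⟩ := mem_box.mp hs
  have hsZ1 : ∀ i, s ∉ Z1 i := fun i h =>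
    hsZ (Finset.mem_union_left _ (Finset.mem_biUnion.mpr ⟨i, Finset.mem_univ _, h⟩))
  have hsZ2 : ∀ i, s ∉ Z2 i := fun i h =>
    hsZ (Finset.mem_union_right _ (Finset.mem_biUnion.mpr ⟨i, Finset.mem_univ _, h⟩))
  have hBK : (K : ℤ) ≤ B := by exact_mod_cast (le_max_left _ _).trans ((le_max_left _ _).trans hB)
  have hB8 : (8 : ℤ) ≤ B := by exact_mod_cast (le_max_right _ _).trans ((le_max_left _ _).trans hB)
  have hBf : (((2 * 8).factorial : ℕ) : ℤ) ≤ B := by exact_mod_cast (le_max_right _ _).trans hB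
  have hB1 : (1 : ℤ) ≤ B := by linarith
  have hdeg := fun i => (H.basic (P.F i) (P.q i) (P.r i) (P.hom i)).1 s
  have hlce := fun i => (H.basic (P.F i) (P.q i) (P.r i) (P.hom i)).2.2.1 s
  have hco : ∀ i k, |(gt (P.F i) s).coeff k| ≤ (B : ℤ) ^ 9 := by
    intro i k
    refine ((hK i B s hs1 hs2).1 k).trans ?_
    have : (B : ℤ) ^ P.q i ≤ (B : ℤ) ^ 8 := pow_le_pow_right₀ hB1 (by have := P.le8 i; omega)
    calc (K : ℤ) * (B : ℤ) ^ P.q i ≤ B * (B : ℤ) ^ 8 := by gcongr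
      _ = _ := by ring
  obtain ⟨D, hD0, hDle, hD1, hD2, hD3⟩ := exists_D H.res (n + 1) (fun i => gt (P.F i) s)
    (fun i => ev (P.F i) s (1, 0)) (fun i => 1 ≤ P.r i) ((B : ℤ) ^ 9) (one_le_pow₀ hB1)
    (fun i => (hdeg i).trans (by have := P.le8 i; omega)) hco hlc
    (fun i => by rw [← hlce i]; exact hco i _)
    (fun i hi => hi.trans (le_natDegree_of_ne_zero (by rw [hlce i]; exact hlc i)))
    (fun i hi => hZ1 i s hs3 (hsZ1 i) hi) (fun i j hij => hZ2 (i, j) s hs3 (hsZ2 _) hij)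
  refine ⟨D, hD0, fun i hi => ⟨hdeg i, hD0, hDle.trans ?_, fun k => (hco i k).trans ?_, ?_, hD2 i hi,
    fun κ hκ => (hR i s hs3 hi κ hκ).trans ?_⟩, hD1, hD3⟩
  · rw [pow_mul (B : ℤ) 161]
    apply pow_le_pow_left₀ (by positivity)
    calc (((2 * 8).factorial : ℕ) : ℤ) * (8 * (B : ℤ) ^ 9) ^ (2 * 8)
        ≤ B * (B * (B : ℤ) ^ 9) ^ (2 * 8) := by gcongr
      _ = _ := by ring
  · exact pow_le_pow_right₀ hB1 (by nlinarith [Nat.zero_le n, Nat.zero_le (n * n)])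
  · rw [hlce i]; exact hD1 i
  · exact_mod_cast Finset.dvd_prod_of_mem _ (Finset.mem_univ i)

theorem Fm.sq {n : ℕ} (H : All7) (P : Fm n) (i : Fin (n + 1)) {α : Type} (ok : ℕ → α → Prop) :
    Sm ok (fun B _ t => P.q i = 0 ∧ 6 ≤ P.r i ∧ ∃ p : ℕ, p.Prime ∧
      (B : ℝ) ^ ((1999 : ℝ) / 1000) ≤ p ∧ (p : ℝ) ≤ (B : ℝ) ^ (((P.r i : ℝ) - 2) / 2 + 1 / 1000) ∧
      (p : ℤ) ^ 2 ∣ hv (gt (P.F i) (1, 0)) (P.r i) t) := by
  by_cases hp : P.q i = 0 ∧ 6 ≤ P.r i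
  swap
  · exact (Sm.empty _).mono (fun _ _ h => h) (fun B a t _ h => hp ⟨h.1, h.2.1⟩)
  obtain ⟨h1, h2⟩ := irr_pure (P.F i) (P.r i) (hp.1 ▸ P.hom i) (by omega) (P.irr i) (P.nz i)
  have h3 : Sp.SqStmt (P.r i) (1999 / 1000) (((P.r i : ℝ) - 2) / 2 + 1 / 1000) := by
    have : P.r i = 6 ∨ P.r i = 7 := by have := P.h i; omega
    rcases this with h | h <;> rw [h]
    · convert H.sq6 using 1; norm_num
    · convert H.sq7 using 1; norm_num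
  obtain ⟨δ, hδ, B0, h⟩ := h3 _ h1 h2
  refine ⟨δ, hδ, B0, fun B hB _ _ => le_trans (Nat.cast_le.mpr (Finset.card_le_card ?_)) (h B hB)⟩
  intro t ht
  simp only [Finset.mem_filter] at ht ⊢
  exact ⟨ht.1, ht.2.2.2⟩

theorem Fm.tdir {n : ℕ} (H : All7) (P : Fm n) : ∃ Z : Finset (ℤ × ℤ), ∀ η : ℝ, 0 < η →
    η ≤ 1 / 1000 → ∃ δ : ℝ, 0 < δ ∧ ∃ B0 : ℕ, ∀ B : ℕ, B0 ≤ B → ∀ s ∈ box B, s ∉ Z →
      (∀ i, ev (P.F i) s (1, 0) ≠ 0) → ∃ (T : Finset (ℤ × ℤ)) (D : ℤ),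
        (T.card : ℝ) ≤ (B : ℝ) ^ (2 - δ) ∧ (∀ i, ev (P.F i) s (1, 0) ∣ D) ∧
        ∀ t ∈ box B, t ∉ T → (∀ i, ev (P.F i) s t ≠ 0) ∧
          ∃ g : Fin (n + 1) → ℕ, (∀ i, Squarefree (g i)) ∧
          (∀ i, (g i : ℤ) ∣ ev (P.F i) s t) ∧ (∀ i j, i ≠ j → Nat.Coprime (g i) (g j)) ∧
          (∀ i, IsCoprime (g i : ℤ) D) ∧
          ∀ i, 1 ≤ P.r i → |(ev (P.F i) s (1, 0) : ℝ)| * (B : ℝ) ^ ((P.r i : ℝ) - 4 * η) ≤ g i ∨
            ((i = 0 ∧ 1 ≤ P.q i ∧ P.q i + P.r i ≤ 8 ∧ P.q i ≤ 6 ∧ P.r i ≤ 6) ∧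
              (B : ℝ) ^ (4 - 5 * η) ≤ g i) := by
  classical
  obtain ⟨Z, c, R, B1, hR, hdir⟩ := P.dir H
  refine ⟨Z, fun η hη hη1 => ?_⟩
  have hη' : η ≤ 1 / 4 := by linarith
  obtain ⟨δ, hδ, B2, hfib⟩ := (fibre H.fewA H.fewB H.fewC H.arch (n + 1) P.r (fun i => 1 ≤ P.r i)
    (fun i h => h) c R hR η hη hη').or (Sm.ex Finset.univ (fun i _ => P.sq H i _))
  obtain ⟨K, hK1, hK⟩ := P.bound H
  obtain ⟨B3, hB3⟩ := ev_pow K (1 / 1000) (by norm_num)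
  refine ⟨δ, hδ, max (max B1 B2) (max B3 2), fun B hB s hs hsZ hlc => ?_⟩
  obtain ⟨D, -, hAdm, hD1, hD2⟩ := hdir s hsZ hlc B (by omega) hs
  have hdeg := fun i => (H.basic (P.F i) (P.q i) (P.r i) (P.hom i)).1 s
  have hhv := fun i => (H.basic (P.F i) (P.q i) (P.r i) (P.hom i)).2.1 s
  have hlce := fun i => (H.basic (P.F i) (P.q i) (P.r i) (P.hom i)).2.2.1 s
  have hc := hfib B (by omega) (fun i => gt (P.F i) s, fun i => gt (P.F i) s, D)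
    ⟨fun i => ⟨hdeg i, by rw [hlce i]; exact hlc i⟩, hAdm⟩
  refine ⟨_, D, hc, hD1, fun t ht htT => ?_⟩
  simp only [Finset.mem_filter, ht, true_and, not_or, not_not, hhv, hlce, Finset.mem_univ] at htT
  obtain ⟨⟨harch, hnice⟩, hsq⟩ := htT
  obtain ⟨hs1, hs2, hs3⟩ := mem_box.mp hs
  obtain ⟨ht1, ht2, ht3⟩ := mem_box.mp ht
  have hB2 : 2 ≤ B := by omega
  have hB1 : (1 : ℝ) ≤ B := by exact_mod_cast (show 1 ≤ B by omega)
  have hB0 : (0 : ℝ) < B := by linarith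
  have hKB := hB3 B (by omega)
  have hsz : ∀ i (e : ℕ), P.q i + P.r i ≤ e →
      |(ev (P.F i) s t : ℝ)| ≤ (B : ℝ) ^ ((e : ℝ) + 1 / 1000) := by
    intro i e he
    have h1 : |(ev (P.F i) s t : ℝ)| ≤ K * (B : ℝ) ^ P.q i * (B : ℝ) ^ P.r i := by
      exact_mod_cast (hK i B s hs1 hs2).2 B t ht1 ht2
    rw [mul_assoc, ← pow_add] at h1
    rw [Real.rpow_add hB0, Real.rpow_natCast, mul_comm]
    exact h1.trans (mul_le_mul hKB (pow_le_pow_right₀ hB1 he) (by positivity) (by positivity))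
  have hne : ∀ i, ev (P.F i) s t ≠ 0 := by
    intro i h
    have h1 := harch i
    rw [h] at h1
    have h2 : (0 : ℝ) < |(ev (P.F i) s (1, 0) : ℝ)| := abs_pos.mpr (by exact_mod_cast hlc i)
    have h3 : (0 : ℝ) < (B : ℝ) ^ ((P.r i : ℝ) - η) := by positivity
    have := mul_pos h2 h3
    simp only [Int.cast_zero, abs_zero] at h1
    linarith
  have hex : ∀ i, ∃ g : ℕ, Squarefree g ∧ (g : ℤ) ∣ ev (P.F i) s t ∧ IsCoprime (g : ℤ) D ∧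
      (P.r i = 0 → g = 1) ∧
      (1 ≤ P.r i → |(ev (P.F i) s (1, 0) : ℝ)| * (B : ℝ) ^ ((P.r i : ℝ) - 4 * η) ≤ g ∨
        ((i = 0 ∧ 1 ≤ P.q i ∧ P.q i + P.r i ≤ 8 ∧ P.q i ≤ 6 ∧ P.r i ≤ 6) ∧
          (B : ℝ) ^ (4 - 5 * η) ≤ g)) := by
    intro i
    by_cases hi : 1 ≤ P.r i
    · obtain ⟨n1, n2, n3⟩ := hnice i hi (hne i)
      have hl : ∀ g : ℕ, |(ev (P.F i) s t : ℝ)| ≤ g * (B : ℝ) ^ (3 * η) →
          |(ev (P.F i) s (1, 0) : ℝ)| * (B : ℝ) ^ ((P.r i : ℝ) - 4 * η) ≤ g := by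
        intro g g4
        have h1 := (harch i).trans g4
        have h2 : (B : ℝ) ^ ((P.r i : ℝ) - η) = (B : ℝ) ^ ((P.r i : ℝ) - 4 * η) * (B : ℝ) ^ (3 * η) := by
          rw [← Real.rpow_add hB0]; congr 1; ring
        rw [h2, ← mul_assoc] at h1
        exact le_of_mul_le_mul_right h1 (by positivity)
      by_cases hp : P.q i = 0 ∧ 6 ≤ P.r i
      · obtain ⟨g, g1, g2, g3, g4⟩ := defect1 η B D _ hη hη' hB2 (hne i) n1 n2
          (no_big η (((P.r i : ℝ) - 2) / 2 + 1 / 1000) B D _ hη1 (by omega) n3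
            ((hsz i (P.r i) (by omega)).trans (Real.rpow_le_rpow_of_exponent_le hB1 (by linarith)))
            (fun h => hsq ⟨i, hp.1, hp.2, by
              rwa [ev_pure (P.F i) (P.r i) (hp.1 ▸ P.hom i)] at h⟩))
        exact ⟨g, g1, g2, g3, fun h => by omega, fun _ => Or.inl (hl g g4)⟩
      obtain ⟨g, g1, g2, g3, g4⟩ := defect η B D _ hη hη' hB2 (hne i) n1 n2 n3
        ((hsz i 8 (P.le8 i)).trans (Real.rpow_le_rpow_of_exponent_le hB1 (by push_cast; linarith)))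
      refine ⟨g, g1, g2, g3, fun h => by omega, fun _ => ?_⟩
      rcases g4 with g4 | ⟨g4, g5⟩
      · exact Or.inl (hl g g4)
      · right
        refine ⟨?_, g5⟩
        by_contra h0
        have h1 := (hsz i 5 (by have := P.h i; omega)).trans
          (Real.rpow_le_rpow_of_exponent_le (z := 6 - 3 * η) hB1 (by push_cast; linarith))
        linarith
    · exact ⟨1, squarefree_one, by simp, by simpa using isCoprime_one_left, fun _ => rfl,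
        fun h => absurd h hi⟩
  choose g g1 g2 g3 g4 g5 using hex
  refine ⟨hne, g, g1, g2, fun i j hij => ?_, g3, g5⟩
  by_cases hi : P.r i = 0
  · rw [g4 i hi]; exact Nat.coprime_one_left _
  apply Nat.Coprime.symm
  apply Nat.coprime_of_dvd
  intro p hp hpj hpi
  have e1 : (p : ℤ) ∣ g i := Int.natCast_dvd_natCast.mpr hpi
  have e2 : (p : ℤ) ∣ g j := Int.natCast_dvd_natCast.mpr hpj
  have e3 := cop_pair _ _ _ _ (hdeg i) (hdeg j) D (by rw [hlce i]; exact hD1 i)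
    (hD2 i j hij (by omega)) t ht3 p hp (by rw [hhv]; exact e1.trans (g2 i))
    (by rw [hhv]; exact e2.trans (g2 j))
  have := (g3 i).isUnit_of_dvd' e1 e3
  rw [Int.isUnit_iff_natAbs_eq, Int.natAbs_natCast] at this
  exact hp.ne_one this

end Pool.Agent.MP_542436_nt.Sq
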