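import Pool.Agent.MP_542436_nt.H3.Schw

set_option autoImplicit false

namespace Pool.Agent.MP_542436_nt.Sq

open Polynomial Finset Sp

theorem dg_mul (hB : BaseStmt) {m n m' n' : ℕ} {f g : ℤ[X][X]} (hf : Dg (m + 1) (n + 1) f)
    (hg : Dg (m' + 1) (n' + 1) g) : Dg (m + m' + 1) (n + n' + 1) (f * g) := by
  by_cases h0 : f * g = 0
  · rw [h0]; intro i k h; simp [cf] at h
  rw [hB.dg_iff] at hf hg ⊢
  rw [hB.dS_mul _ f g (left_ne_zero_of_mul h0) (right_ne_zero_of_mul h0)]
  exact ⟨add_le_add hf.1 hg.1, natDegree_mul_le.trans (add_le_add hf.2 hg.2)⟩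

theorem dg_pow (hB : BaseStmt) {m n : ℕ} {f : ℤ[X][X]} (hf : Dg (m + 1) (n + 1) f) (j : ℕ) :
    Dg (j * m + 1) (j * n + 1) (f ^ j) := by
  induction j with
  | zero =>
    intro i k h
    simp only [cf, pow_zero, coeff_one] at h
    split_ifs at h with hk
    · rw [coeff_one] at h
      split_ifs at h with hi
      · omega
      · exact absurd rfl h
    · simp at h
  | succ j ih => rw [pow_succ, add_mul, add_mul, one_mul, one_mul]; exact dg_mul hB ih hf

theorem term_le {c : ℤ} {A B W X : ℝ} {x y a b : ℤ} {i l k n : ℕ} (e : ℕ) (he : e ≤ i) (hk : k ≤ n)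
    (hc : |(c : ℝ)| * A ^ i * B ^ l ≤ W) (hx : |(x : ℝ)| ≤ A) (hy : |(y : ℝ)| ≤ B)
    (ha : |(a : ℝ)| ≤ X) (hb : |(b : ℝ)| ≤ X) :
    |(c : ℝ) * ((x : ℝ) ^ (i - e) * (y : ℝ) ^ l) * ((a : ℝ) ^ k * (b : ℝ) ^ (n - k))| * A ^ e ≤
      W * X ^ n := by
  have hA := (abs_nonneg _).trans hx
  have hB := (abs_nonneg _).trans hy
  have hX := (abs_nonneg _).trans ha
  obtain ⟨i', rfl⟩ := Nat.exists_eq_add_of_le he
  obtain ⟨k', rfl⟩ := Nat.exists_eq_add_of_le hk
  simp only [Nat.add_sub_cancel_left, abs_mul, abs_pow]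
  calc _ ≤ |(c : ℝ)| * (A ^ i' * B ^ l) * (X ^ k * X ^ k') * A ^ e := by gcongr
    _ = (|(c : ℝ)| * A ^ (e + i') * B ^ l) * X ^ (k + k') := by ring
    _ ≤ _ := by gcongr

theorem sum_bound {m n : ℕ} {F : ℕ → ℕ → ℝ} {c V : ℝ} (hc : 0 ≤ c)
    (h : ∀ i k, i ≤ m → k ≤ n → |F i k| * c ≤ V) :
    |∑ i ∈ range (m + 1), ∑ k ∈ range (n + 1), F i k| * c ≤ (m + 1) * (n + 1) * V := by
  calc _ ≤ (∑ i ∈ range (m + 1), ∑ k ∈ range (n + 1), |F i k|) * c :=
        mul_le_mul_of_nonneg_right ((abs_sum_le_sum_abs _ _).trans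
          (sum_le_sum fun i _ => abs_sum_le_sum_abs _ _)) hc
    _ ≤ ∑ _i ∈ range (m + 1), ∑ _k ∈ range (n + 1), V := by
        rw [sum_mul]
        refine sum_le_sum fun i hi => ?_
        rw [sum_mul]
        exact sum_le_sum fun k hk => h i k (Nat.lt_succ_iff.mp (mem_range.mp hi))
          (Nat.lt_succ_iff.mp (mem_range.mp hk))
    _ = _ := by simp; ring

/-- The Kronecker substitution. -/
noncomputable def kro (c : ℂ) (L : ℕ) : ℤ[X][X] →+* ℂ[X] :=
  eval₂RingHom ((compRingHom (C c * X)).comp (mapRingHom (Int.castRingHom ℂ))) (X ^ L)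

theorem kro_coeff (c : ℂ) (L : ℕ) (f : ℤ[X][X]) (hf : ∀ i k, cf f i k ≠ 0 → i < L) (i k : ℕ)
    (hi : i < L) : (kro c L f).coeff (i + L * k) = cf f i k * c ^ i := by
  have h0 : ∀ i k, L ≤ i → (f.coeff k).coeff i = 0 := fun i k h => by
    by_contra hc
    exact absurd (hf i k hc) (by omega)
  rw [kro, coe_eval₂RingHom, eval₂_eq_sum, sum_def, finsetSum_coeff]
  simp only [← pow_mul, coeff_mul_X_pow', RingHom.comp_apply, coe_compRingHom_apply,
    coe_mapRingHom, comp_C_mul_X_coeff, coeff_map, eq_intCast]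
  rw [sum_eq_single k]
  · simp [cf]
  · intro k' _ hk
    split_ifs with h
    · rcases lt_or_gt_of_ne hk with h1 | h1
      · have := Nat.mul_le_mul_left L (Nat.succ_le_of_lt h1)
        rw [h0 _ _ (by rw [Nat.mul_succ] at this; omega)]
        simp
      · have := Nat.mul_le_mul_left L (Nat.succ_le_of_lt h1)
        rw [Nat.mul_succ] at this
        omega
    · rfl
  · intro h
    simp [notMem_support_iff.mp h]

theorem kro_supp (c : ℂ) {L m n : ℕ} {f : ℤ[X][X]} (hf : Dg (m + 1) (n + 1) f) (hm : m < L)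
    (hn : n < L) : (kro c L f).support ⊆ range (L * L) := by
  intro e he
  rw [mem_support_iff, ← Nat.mod_add_div e L, kro_coeff c L f (fun i k h => by
    have := (hf i k h).1; omega) _ _ (Nat.mod_lt _ (by omega))] at he
  have := (hf _ _ (by exact_mod_cast left_ne_zero_of_mul he)).2
  rw [mem_range, ← Nat.div_lt_iff_lt_mul (by omega)]
  omega

theorem kro_le (c : ℝ) (hc : 0 ≤ c) {L m n : ℕ} {f : ℤ[X][X]} (hf : Dg (m + 1) (n + 1) f)
    (hm : m < L) (hn : n < L) (i k : ℕ) (hi : i ≤ m) :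
    |((cf f i k : ℤ) : ℝ)| * c ^ i ≤ 2 ^ (L * L) * (kro c L f).mahlerMeasure := by
  have h1 := norm_coeff_le_choose_mul_mahlerMeasure (i + L * k) (kro c L f)
  rw [kro_coeff c L f (fun i k h => by have := (hf i k h).1; omega) _ _ (by omega), norm_mul,
    norm_pow, Complex.norm_intCast, Complex.norm_real, Real.norm_of_nonneg hc] at h1
  refine h1.trans (mul_le_mul_of_nonneg_right ?_ (mahlerMeasure_nonneg _))
  have h2 : (kro c L f).natDegree ≤ L * L := natDegree_le_iff_coeff_eq_zero.mpr fun e he => by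
    by_contra h
    have := mem_range.mp (kro_supp c hf hm hn (mem_support_iff.mpr h))
    omega
  exact_mod_cast (Nat.choose_le_two_pow _ _).trans (Nat.pow_le_pow_right (by norm_num) h2)

theorem vals (hB : BaseStmt) : ValStmt where
  val := by
    intro m n h A B W X x y a b hN hx hy ha hb
    have := sum_bound (m := m) (n := n) (V := W * X ^ n) (F := fun i k => ((cf h i k : ℤ) : ℝ) *
      ((x : ℝ) ^ i * (y : ℝ) ^ (m - i)) * ((a : ℝ) ^ k * (b : ℝ) ^ (n - k))) zero_le_one
      (fun i k hi hk => by simpa using term_le 0 (Nat.zero_le i) hk (hN i k hi) hx hy ha hb)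
    rw [hval]
    push_cast
    linarith
  der := by
    intro m n j m1 n1 g h A B W X x y a b hm1 hjm hjn hg hh hN hA hx hy ha hb hy0 hb0 h0
    have hy' : (y : ℝ) ≠ 0 := by exact_mod_cast hy0
    have hb' : (b : ℝ) ≠ 0 := by exact_mod_cast hb0
    have hD : Dg (m + 1) (n + 1) (g ^ j * h) := by
      have := dg_mul hB (dg_pow hB hg j) hh
      rwa [Nat.add_sub_cancel' hjm, Nat.add_sub_cancel' hjn] at this
    set s : ℝ := x / y with hs
    set t : ℝ := a / b with ht
    have hs' : s * y = x := div_mul_cancel₀ _ hy'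
    have ht' : t * b = a := div_mul_cancel₀ _ hb'
    have e0 := H3.SchwAux.hval_cast hB hg hs' ht'
    rw [h0, Int.cast_zero, eq_comm, mul_eq_zero] at e0
    obtain ⟨G, hG⟩ := dvd_iff_isRoot.mpr (show IsRoot ((up ℝ g).eval (C t)) s from
      e0.resolve_left (by positivity))
    have e1 : (up ℝ (ds g)).evalEval s t = G.eval s := by
      rw [hB.up_ds, evalEval, ← H3.SchwAux.der_eval hB, hG]
      simp
    have e2 : (taylor s ((up ℝ (g ^ j * h)).eval (C t))).coeff j =
        (G.eval s) ^ j * (up ℝ h).evalEval s t := by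
      rw [up, Polynomial.map_mul, Polynomial.map_pow, eval_mul, eval_pow, ← up, ← up, hG, mul_pow,
        mul_assoc, taylor_mul, taylor_pow, map_sub, taylor_X, taylor_C, add_sub_cancel_right,
        coeff_X_pow_mul', if_pos le_rfl, Nat.sub_self, taylor_coeff_zero, eval_mul, eval_pow]
    have hj : j ≤ m := le_trans (Nat.le_mul_of_pos_right j hm1) hjm
    have hc := H3.SchwAux.coeff_natDegree_le (H3.SchwAux.dg_up hB ℝ hD)
    have hd : (up ℝ (g ^ j * h)).natDegree < n + 1 :=
      Nat.lt_succ_of_le ((hB.dg_iff _ _ _ _).mp (H3.SchwAux.dg_up hB ℝ hD)).2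
    have e3 : (y : ℝ) ^ (m - j) * (b : ℝ) ^ n * (taylor s ((up ℝ (g ^ j * h)).eval (C t))).coeff j =
        ∑ i ∈ range (m + 1), ∑ k ∈ range (n + 1), (i.choose j : ℝ) * (((cf (g ^ j * h) i k : ℤ) : ℝ) *
          ((x : ℝ) ^ (i - j) * (y : ℝ) ^ (m - i)) * ((a : ℝ) ^ k * (b : ℝ) ^ (n - k))) := by
      rw [sum_comm, eval_eq_sum_range' hd, map_sum, finsetSum_coeff, mul_sum]
      refine sum_congr rfl fun k hk => ?_
      rw [taylor_mul, ← C_pow, taylor_C, coeff_mul_C, taylor_coeff,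
        as_sum_range' _ _ (Nat.lt_succ_of_le (hc k)), map_sum, eval_finsetSum, sum_mul, mul_sum]
      refine sum_congr rfl fun i hi => ?_
      rw [hasseDeriv_monomial, eval_monomial, ← cf, hB.cf_up]
      by_cases hij : i < j
      · simp [Nat.choose_eq_zero_of_lt hij]
      obtain ⟨i', rfl⟩ := Nat.exists_eq_add_of_le (not_lt.mp hij)
      obtain ⟨l, rfl⟩ := Nat.exists_eq_add_of_le (Nat.lt_succ_iff.1 (mem_range.1 hi))
      obtain ⟨k', rfl⟩ := Nat.exists_eq_add_of_le (Nat.lt_succ_iff.1 (mem_range.1 hk))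
      rw [← hs', ← ht', Nat.add_sub_cancel_left, Nat.add_sub_cancel_left, Nat.add_sub_cancel_left,
        add_assoc, Nat.add_sub_cancel_left]
      ring
    have e4 : ((hval (m - j * m1) (n - j * n1) h x y a b : ℤ) : ℝ) *
        ((hval (m1 - 1) n1 (ds g) x y a b : ℤ) : ℝ) ^ j =
        (y : ℝ) ^ (m - j) * (b : ℝ) ^ n * ((G.eval s) ^ j * (up ℝ h).evalEval s t) := by
      rw [H3.SchwAux.hval_cast hB hh hs' ht', H3.SchwAux.hval_cast hB (H3.SchwAux.dg_ds hB hg) hs' ht', e1]
      obtain ⟨u, rfl⟩ := Nat.exists_eq_add_of_le hm1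
      obtain ⟨v, rfl⟩ := Nat.exists_eq_add_of_le hjm
      obtain ⟨w, rfl⟩ := Nat.exists_eq_add_of_le hjn
      rw [Nat.add_sub_cancel_left, Nat.add_sub_cancel_left, Nat.add_sub_cancel_left, mul_add,
        mul_one, add_assoc, Nat.add_sub_cancel_left]
      ring
    rw [← abs_pow, ← abs_mul, e4, ← e2, e3, mul_assoc (_ * _), mul_assoc (_ * _)]
    refine sum_bound (by positivity) fun i k hi hk => ?_
    have hW : 0 ≤ W := le_trans (by have := (abs_nonneg _).trans hy; positivity) (hN i k hi)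
    have hX := (abs_nonneg _).trans ha
    by_cases hij : i < j
    · rw [Nat.choose_eq_zero_of_lt hij, Nat.cast_zero, zero_mul, abs_zero, zero_mul]
      positivity
    rw [abs_mul, mul_assoc, Nat.abs_cast]
    refine mul_le_mul ?_ (term_le j (not_lt.mp hij) hk (hN i k hi) hx hy ha hb) (by positivity)
      (by positivity)
    exact_mod_cast (Nat.choose_le_two_pow _ _).trans (Nat.pow_le_pow_right (by norm_num) hi)
  gel := by
    intro M
    refine ⟨(2 ^ ((M + 1) * (M + 1))) ^ (M + 1) * ((M + 1) * (M + 1) : ℕ), ?_, ?_⟩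
    · exact one_le_mul_of_one_le_of_one_le (one_le_pow₀ (one_le_pow₀ (by norm_num)))
        (by exact_mod_cast Nat.mul_pos M.succ_pos M.succ_pos)
    intro j m1 n1 m2 n2 g h A B W h1 h2 hj hg hh hA hB0 hN i k i' k' hi hi'
    have hc : 0 ≤ A / B := by positivity
    have hD := dg_mul hB (dg_pow hB hg j) hh
    have a1 : (|((cf g i k : ℤ) : ℝ)| * (A / B) ^ i) ^ j ≤
        (2 ^ ((M + 1) * (M + 1)) * (kro (A / B : ℝ) (M + 1) g).mahlerMeasure) ^ j := by
      rcases Nat.eq_zero_or_pos j with rfl | h0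
      · simp
      · have := Nat.le_mul_of_pos_left m1 h0
        have := Nat.le_mul_of_pos_left n1 h0
        exact pow_le_pow_left₀ (by positivity) (kro_le _ hc hg (by omega) (by omega) i k hi) j
    have a2 := kro_le _ hc (L := M + 1) hh (by omega) (by omega) i' k' hi'
    have hp : ∀ j : ℕ, ((kro (A / B : ℝ) (M + 1) g) ^ j).mahlerMeasure =
        (kro (A / B : ℝ) (M + 1) g).mahlerMeasure ^ j := fun j => by
      induction j with
      | zero => simp
      | succ j ih => rw [pow_succ, mahlerMeasure_mul, ih, pow_succ]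
    have hW : 0 ≤ W := le_trans (by positivity) (hN 0 0 (Nat.zero_le _))
    have a3 : (kro (A / B : ℝ) (M + 1) (g ^ j * h)).mahlerMeasure * B ^ (j * m1 + m2) ≤
        ((M + 1) * (M + 1) : ℕ) * W := by
      refine (mul_le_mul_of_nonneg_right (mahlerMeasure_le_sum_norm_coeff _)
        (by positivity)).trans ?_
      rw [sum_def, sum_mul]
      refine (sum_le_card_nsmul _ _ W fun e he => ?_).trans ?_
      · rw [mem_support_iff] at he
        rw [← Nat.mod_add_div e (M + 1), kro_coeff _ _ _ (fun i k h => by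
          have := (hD i k h).1; omega) _ _ (Nat.mod_lt _ (by omega))] at he ⊢
        have b1 := (hD _ _ (by exact_mod_cast left_ne_zero_of_mul he)).1
        refine le_of_eq_of_le ?_ (hN (e % (M + 1)) (e / (M + 1)) (by omega))
        obtain ⟨l, hl⟩ := Nat.exists_eq_add_of_le (Nat.lt_succ_iff.mp b1)
        rw [hl, Nat.add_sub_cancel_left, norm_mul, norm_pow, Complex.norm_intCast,
          Complex.norm_real, Real.norm_of_nonneg hc, div_pow, pow_add]
        field_simp
      · rw [nsmul_eq_mul]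
        refine mul_le_mul_of_nonneg_right ?_ hW
        exact_mod_cast (card_le_card (kro_supp _ hD (by omega) (by omega))).trans_eq (card_range _)
    rw [map_mul, map_pow, mahlerMeasure_mul, hp] at a3
    have m1' := mahlerMeasure_nonneg (kro (A / B : ℝ) (M + 1) g)
    have m2' := mahlerMeasure_nonneg (kro (A / B : ℝ) (M + 1) h)
    have a4 : ((2 : ℝ) ^ ((M + 1) * (M + 1))) ^ (j + 1) ≤ (2 ^ ((M + 1) * (M + 1))) ^ (M + 1) :=
      pow_le_pow_right₀ (one_le_pow₀ (by norm_num)) (by omega)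
    obtain ⟨l, rfl⟩ := Nat.exists_eq_add_of_le hi
    obtain ⟨l', rfl⟩ := Nat.exists_eq_add_of_le hi'
    rw [Nat.add_sub_cancel_left, Nat.add_sub_cancel_left]
    calc _ = (|((cf g i k : ℤ) : ℝ)| * (A / B) ^ i) ^ j * (|((cf h i' k' : ℤ) : ℝ)| * (A / B) ^ i') *
          B ^ (j * (i + l) + (i' + l')) := by
          rw [pow_add, mul_comm j, pow_mul, mul_mul_mul_comm, ← mul_pow, div_pow, div_pow, pow_add,
            pow_add]
          congr 1
          · congr 1; field_simp
          · field_simp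
      _ ≤ (2 ^ ((M + 1) * (M + 1)) * (kro (A / B : ℝ) (M + 1) g).mahlerMeasure) ^ j *
          (2 ^ ((M + 1) * (M + 1)) * (kro (A / B : ℝ) (M + 1) h).mahlerMeasure) *
          B ^ (j * (i + l) + (i' + l')) := by gcongr
      _ = (2 ^ ((M + 1) * (M + 1))) ^ (j + 1) * ((kro (A / B : ℝ) (M + 1) g).mahlerMeasure ^ j *
          (kro (A / B : ℝ) (M + 1) h).mahlerMeasure * B ^ (j * (i + l) + (i' + l'))) := by ring
      _ ≤ (2 ^ ((M + 1) * (M + 1))) ^ (M + 1) * (((M + 1) * (M + 1) : ℕ) * W) := by gcongr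
      _ = _ := by ring

end Pool.Agent.MP_542436_nt.Sq
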