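import Pool.Agent.MP_542436_nt.Sq.Asm
import Pool.Agent.MP_542436_nt.Sq.Dir
import Pool.Agent.MP_542436_nt.Sq.Val
import Pool.Agent.MP_542436_nt.H84.S3
import Pool.Agent.MP_542436_nt.H76.Hor
import Pool.Agent.MP_542436_nt.H14.Height
import Pool.Agent.MP_542436_nt.H31.KerC

set_option autoImplicit false

namespace Pool.Agent.MP_542436_nt.Sq

theorem all7 : All7 :=
  have h := Sp.sq_of (H84.hensel H3.plc) (H84.fewDiv H3.plc) H14.height (vals H76.base)
    (H76.hor H76.base) (H76.cap H76.base) Sp.kerC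
  ⟨H5.all, h.1, h.2⟩

end Pool.Agent.MP_542436_nt.Sq
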