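import Pool.Agent.MP_542436_nt.Sp.Certs
import Pool.Agent.MP_542436_nt.H76.Base
import Pool.Agent.MP_542436_nt.H3.Plc
import Pool.Agent.MP_542436_nt.H3.Schw
import Pool.Agent.MP_542436_nt.H3.Cont
import Pool.Agent.MP_542436_nt.H54.S4
import Pool.Agent.MP_542436_nt.H54.S19
import Pool.Agent.MP_542436_nt.H22.Siegel
import Pool.Agent.MP_542436_nt.H70.S9
import Pool.Agent.MP_542436_nt.H70.S23
import Pool.Agent.MP_542436_nt.H42.Zero
import Pool.Agent.MP_542436_nt.H62.S13
import Pool.Agent.MP_542436_nt.H93.KerA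
import Pool.Agent.MP_542436_nt.H81.KerB
import Pool.Agent.MP_542436_nt.H91.Rare1
import Pool.Agent.MP_542436_nt.H91.Ex
import Pool.Agent.MP_542436_nt.H73.Cls
import Pool.Agent.MP_542436_nt.H2.Line
import Pool.Agent.MP_542436_nt.H80.Lat
import Pool.Agent.MP_542436_nt.H94.Glob
import Pool.Agent.MP_542436_nt.H79.Filt
import Pool.Agent.MP_542436_nt.H10.Dir

set_option autoImplicit false

namespace Pool.Agent.MP_542436_nt.Sp

theorem glob_join {K : Type} [Field K] {θ : K} {a b b' c : ℝ} (hb : b' ≤ b) (h1 : GlobC θ a b)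
    (h2 : GlobC θ b' c) : GlobC θ a c := by
  obtain ⟨δ1, C1, X1, p1, h1⟩ := h1
  obtain ⟨δ2, C2, X2, p2, h2⟩ := h2
  refine ⟨min δ1 δ2, max (max C1 C2) 0, max (max X1 X2) 1, lt_min p1 p2,
    fun X hX P hP0 hP1 E hE => ?_⟩
  have hX1 : 1 ≤ X := (le_max_right _ _).trans hX
  have hXa : X1 ≤ X := ((le_max_left _ _).trans (le_max_left _ _)).trans hX
  have hXb : X2 ≤ X := ((le_max_right _ _).trans (le_max_left _ _)).trans hX
  rcases le_total P b with h | h
  · exact (h1 X hXa P hP0 h E hE).trans (mul_le_mul ((le_max_left _ _).trans (le_max_left _ _))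
      (Real.rpow_le_rpow_of_exponent_le hX1 (by linarith [min_le_left δ1 δ2])) (by positivity)
      (le_max_right _ _))
  · exact (h2 X hXb P (hb.trans h) hP1 E hE).trans (mul_le_mul
      ((le_max_right _ _).trans (le_max_left _ _))
      (Real.rpow_le_rpow_of_exponent_le hX1 (by linarith [min_le_right δ1 δ2])) (by positivity)
      (le_max_right _ _))

theorem glob_of (hF : FewDivStmt) (hHt : HeightStmt) (hV : ValStmt) (hHor : HorStmt)
    (hCap : CapStmt) (hKC : KerCStmt) (R : Rg) (K : Type) [Field K] [NumberField K] (θ : K)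
    (hθ : St R.d θ) (hO : R.Ok) (hC : Cert R) : GlobC θ R.P0 R.P1 := by
  have hB := H76.base
  have hP := H3.plc
  have hE := H91.ex hB hHor
  have hPD := H54.pdiv hB hP
  have hCls := H73.cls hB hPD H22.siegel hV (H79.filt hB hPD (H3.schw hB) (H70.bez hB) hCap)
  have hL := H2.line hB hP hF hPD (H54.low hB hP) (H54.triv hP hF) H22.siegel H70.nz hHt hV
    (H70.factor hB) (H42.zero hB H70.nz) (H54.curve hB (H70.bez hB) (H3.classes hB) hCls)
  exact H94.glob hP (H80.lat hP) H10.dir (H62.rare0 hB H91.inj hE H62.sz)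
    (H91.rare1 hB H62.sz H3.cont (H93.kerA hB H91.inj hE) H81.kerB hKC) R K θ hθ hO
    (hL R K θ hθ hO hC)

theorem sq_of (hH : HenselStmt) (hF : FewDivStmt) (hHt : HeightStmt) (hV : ValStmt)
    (hHor : HorStmt) (hCap : CapStmt) (hKC : KerCStmt) :
    SqStmt 6 (1999 / 1000) (2001 / 1000) ∧ SqStmt 7 (1999 / 1000) (2501 / 1000) := by
  have G := glob_of hF hHt hV hHor hCap hKC
  constructor
  · refine H70.fin H3.plc hH 6 R5.toRg.P0 R5.toRg.P1 _ _ le_rfl ?_ ?_ ?_
      (fun K _ _ θ hθ => G R5.toRg K θ hθ ok5 cert5)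
    all_goals norm_num [RZ.toRg, R5]
  · refine H70.fin H3.plc hH 7 R1.toRg.P0 R4.toRg.P1 _ _ (by norm_num) ?_ ?_ ?_
      (fun K _ _ θ hθ => glob_join (le_of_eq rfl) (glob_join (le_of_eq rfl) (glob_join
        (le_of_eq rfl) (G R1.toRg K θ hθ ok1 cert1) (G R2.toRg K θ hθ ok2 cert2))
        (G R3.toRg K θ hθ ok3 cert3)) (G R4.toRg K θ hθ ok4 cert4))
    all_goals norm_num [RZ.toRg, R1, R4]

end Pool.Agent.MP_542436_nt.Sp
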