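import Pool.Agent.MP_542436_nt.Sq.Rad

set_option autoImplicit false

namespace Pool.Agent.MP_542436_nt.Sq

open H5 Finset

theorem card_sq (M : ℕ) :
    ((Icc (-(M : ℤ)) M ×ˢ Icc (-(M : ℤ)) M).card : ℝ) = (2 * M + 1) ^ 2 := by
  rw [card_product, Int.card_Icc, show ((M : ℤ) + 1 - -(M : ℤ)).toNat = 2 * M + 1 by omega]
  push_cast
  ring

theorem fewSq {n : ℕ} (H : All7) (P : Fm n) (b : ℤ) (hq : ∀ i, P.q i = 0)
    (W : MvPolynomial (Fin 2) ℤ) (D : ℕ) (hW : ∀ (c : ℤ) (t : ℤ × ℤ),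
      MvPolynomial.eval ![c * t.1, c * t.2] W = c ^ D * ∏ i, ev (P.F i) (1, 0) (shr (-b) t)) :
    FewSq W := by
  classical
  intro η hη
  obtain ⟨δ1, hδ1, B1, h⟩ := P.prim H hq (η / 4) (by positivity)
  obtain ⟨κ, hκ, hκ1, hκ2, hκ3⟩ : ∃ κ : ℝ, 0 < κ ∧ κ ≤ η / 2 ∧ κ ≤ δ1 / 2 ∧ κ ≤ 1 / 2 :=
    ⟨min (η / 2) (min (δ1 / 2) (1 / 2)), by positivity, min_le_left _ _,
      (min_le_right _ _).trans (min_le_left _ _), (min_le_right _ _).trans (min_le_right _ _)⟩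
  set β : ℕ := 1 + b.natAbs with hβ
  set B0 : ℕ := max B1 β with hB0
  refine ⟨κ, (2 * B0 + 1) ^ 2 + (19 + (β : ℝ) ^ 2), hκ, by positivity, fun B hB E hE => ?_⟩
  have hB1 : (1 : ℝ) ≤ B := by exact_mod_cast hB
  have hBp : (0 : ℝ) < B := by linarith
  have hp1 : (1 : ℝ) ≤ (B : ℝ) ^ (2 - κ) := Real.one_le_rpow hB1 (by linarith)
  by_cases hsm : B < B0
  · have : E ⊆ Icc (-(B0 : ℤ)) B0 ×ˢ Icc (-(B0 : ℤ)) B0 := by
      intro t ht
      obtain ⟨a1, a2, -⟩ := hE t ht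
      rw [abs_le] at a1 a2
      simp only [mem_product, mem_Icc]
      omega
    have h1 : (E.card : ℝ) ≤ (2 * B0 + 1) ^ 2 := by
      rw [← card_sq]; exact_mod_cast card_le_card this
    nlinarith [sq_nonneg (β : ℝ), sq_nonneg (2 * (B0 : ℝ) + 1)]
  have hβ1 : 1 ≤ β := by omega
  have hβB : β ≤ B := by omega
  obtain ⟨T, hT, hTg⟩ := h (β * B) (le_trans (by omega) (Nat.le_mul_of_pos_left B hβ1))
  set G := ⌊(B : ℝ) ^ κ⌋₊ with hG
  have hk1 : (1 : ℝ) ≤ (B : ℝ) ^ κ := Real.one_le_rpow hB1 hκ.le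
  have hG1 : 1 ≤ G := Nat.le_floor (by exact_mod_cast hk1)
  have hG1' : (1 : ℝ) ≤ G := by exact_mod_cast hG1
  have hGle : (G : ℝ) ≤ (B : ℝ) ^ κ := Nat.floor_le (by positivity)
  have hGlt : (B : ℝ) ^ κ ≤ 2 * G := by linarith [Nat.lt_floor_add_one ((B : ℝ) ^ κ)]
  have hGB : G ≤ B := by
    have := hGle.trans (Real.rpow_le_rpow_of_exponent_le (z := 1) hB1 (by linarith))
    rw [Real.rpow_one] at this
    exact_mod_cast this
  have hsub : E ⊆ {(0, 0)} ∪ ((Ioc G B).biUnion (fun g : ℕ =>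
      (Icc (-((B / g : ℕ) : ℤ)) (B / g : ℕ) ×ˢ Icc (-((B / g : ℕ) : ℤ)) (B / g : ℕ)).image
        (fun t : ℤ × ℤ => ((g : ℤ) * t.1, (g : ℤ) * t.2))) ∪
      (Icc 1 G ×ˢ T).image (fun z : ℕ × ℤ × ℤ =>
        ((z.1 : ℤ) * (shr b z.2).1, (z.1 : ℤ) * (shr b z.2).2))) := by
    rintro ⟨x, y⟩ hxy
    obtain ⟨a1, a2, a3⟩ := hE _ hxy
    simp only at a1 a2 a3
    by_cases h0 : Int.gcd x y = 0
    · rw [Int.gcd_eq_zero_iff] at h0
      simp [h0.1, h0.2]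
    obtain ⟨t, t1, t2, t3⟩ := exists_prim x y h0
    generalize Int.gcd x y = g at h0 t2 t3
    subst t2 t3
    have hg : (0 : ℤ) < g := by omega
    rw [abs_mul, abs_of_pos hg] at a1 a2
    have hht : g * ht t ≤ B := by
      rw [← Int.natCast_natAbs] at a1 a2
      unfold ht
      rw [← Nat.mul_max_mul_left]
      exact max_le (by exact_mod_cast a1) (by exact_mod_cast a2)
    refine mem_union_right _ ?_
    by_cases hgG : G < g
    · refine mem_union_left _ (mem_biUnion.mpr ⟨g, mem_Ioc.mpr ⟨hgG, le_trans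
        (Nat.le_mul_of_pos_right g (ht_pos t1)) hht⟩, mem_image.mpr ⟨t, ?_, rfl⟩⟩)
      have := (Nat.le_div_iff_mul_le (show 0 < g by omega)).mpr ((mul_comm _ _).trans_le hht)
      unfold ht at this
      simp only [mem_product, mem_Icc]
      omega
    refine mem_union_right _ (mem_image.mpr ⟨(g, shr (-b) t), mem_product.mpr
      ⟨mem_Icc.mpr ⟨by omega, by omega⟩, ?_⟩, by simp only [shr_shr]⟩)
    by_contra hT'
    have hu : shr (-b) t ∈ H5.box (β * B) := by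
      refine mem_box_of_ht (gcd_shr _ _ t1) ?_
      have u1 := ht_shr (-b) t
      have u2 : ht t ≤ B := le_trans (Nat.le_mul_of_pos_left _ (by omega)) hht
      have u3 : (1 + |((-b : ℤ) : ℝ)|) = (β : ℝ) := by
        rw [hβ]; push_cast; rw [abs_neg, Nat.cast_natAbs]; push_cast; rfl
      rw [u3] at u1
      exact le_trans (by exact_mod_cast u1) (Nat.mul_le_mul_left β u2)
    obtain ⟨v1, v2⟩ := hTg _ hu hT'
    rw [hW] at a3
    rcases a3 with a3 | ⟨d, d1, d2, d3⟩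
    · exact mul_ne_zero (pow_ne_zero _ hg.ne') v1 a3
    obtain ⟨e, he⟩ := Nat.gcd_dvd_left d g
    have hc : Nat.Coprime e g := by
      apply Nat.coprime_of_dvd
      intro p hp h1 h2
      have h3 : p ∣ Nat.gcd d g := Nat.dvd_gcd (h1.trans ⟨_, he.trans (mul_comm _ _)⟩) h2
      exact hp.not_isUnit (d1 p (he ▸ mul_dvd_mul h3 h1))
    have he2 : (e : ℤ) ^ 2 ∣ (d : ℤ) ^ 2 :=
      pow_dvd_pow_of_dvd (Int.natCast_dvd_natCast.mpr ⟨_, he.trans (mul_comm _ _)⟩) 2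
    have v3 := v2 e (((Nat.isCoprime_iff_coprime.mpr hc).pow).dvd_of_dvd_mul_left (he2.trans d3))
    have v4 : ((Nat.gcd d g : ℕ) : ℝ) ≤ (B : ℝ) ^ (η / 2) := by
      have : Nat.gcd d g ≤ G := (Nat.le_of_dvd (by omega) (Nat.gcd_dvd_right d g)).trans (by omega)
      exact le_trans (by exact_mod_cast this)
        (hGle.trans (Real.rpow_le_rpow_of_exponent_le hB1 hκ1))
    have v5 : ((β * B : ℕ) : ℝ) ^ (η / 4) ≤ (B : ℝ) ^ (η / 2) := by
      have : ((β * B : ℕ) : ℝ) ≤ B * B := by exact_mod_cast Nat.mul_le_mul_right B hβB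
      refine (Real.rpow_le_rpow (by positivity) this (by positivity)).trans_eq ?_
      rw [Real.mul_rpow hBp.le hBp.le, ← Real.rpow_add hBp]
      congr 1; ring
    have v6 : (d : ℝ) ≤ (B : ℝ) ^ (η / 2) * (B : ℝ) ^ (η / 2) := by
      rw [he, Nat.cast_mul]
      exact mul_le_mul v4 (v3.trans v5) (by positivity) (by positivity)
    rw [← Real.rpow_add hBp, add_halves] at v6
    linarith
  have c1 : (((Ioc G B).biUnion (fun g : ℕ =>
      (Icc (-((B / g : ℕ) : ℤ)) (B / g : ℕ) ×ˢ Icc (-((B / g : ℕ) : ℤ)) (B / g : ℕ)).image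
        (fun t : ℤ × ℤ => ((g : ℤ) * t.1, (g : ℤ) * t.2)))).card : ℝ) ≤
      18 * (B : ℝ) ^ (2 - κ) := by
    refine le_trans (Nat.cast_le.mpr card_biUnion_le) ?_
    rw [Nat.cast_sum]
    refine (sum_le_sum (g := fun g : ℕ => 9 * (B : ℝ) ^ 2 * ((g : ℝ) ^ 2)⁻¹) fun g hg => ?_).trans ?_
    · rw [mem_Ioc] at hg
      refine le_trans (Nat.cast_le.mpr card_image_le) ?_
      rw [card_sq]
      have g0 : (0 : ℝ) < g := by exact_mod_cast (show 0 < g by omega)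
      have g1 : ((B / g : ℕ) : ℝ) ≤ B / g := Nat.cast_div_le
      have g2 : (1 : ℝ) ≤ B / g := by rw [le_div_iff₀ g0, one_mul]; exact_mod_cast hg.2
      calc _ ≤ (3 * ((B : ℝ) / g)) ^ 2 := by gcongr; linarith
        _ = _ := by field_simp; norm_num
    · rw [← mul_sum]
      have s1 := sum_Ioc_inv_sq_le_sub (α := ℝ) (show G ≠ 0 by omega) hGB
      have s2 : (G : ℝ)⁻¹ ≤ 2 * (B : ℝ) ^ (-κ) := by
        rw [Real.rpow_neg hBp.le, ← div_eq_mul_inv, inv_eq_one_div, div_le_div_iff₀ (by positivity)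
          (by positivity)]
        linarith
      have s3 : (0 : ℝ) ≤ (B : ℝ)⁻¹ := by positivity
      calc _ ≤ 9 * (B : ℝ) ^ 2 * (2 * (B : ℝ) ^ (-κ)) := by gcongr; linarith
        _ = _ := by rw [sub_eq_add_neg, Real.rpow_add hBp, Real.rpow_two]; ring
  have c2 : (((Icc 1 G ×ˢ T).image (fun z : ℕ × ℤ × ℤ =>
        ((z.1 : ℤ) * (shr b z.2).1, (z.1 : ℤ) * (shr b z.2).2))).card : ℝ) ≤
      (β : ℝ) ^ 2 * (B : ℝ) ^ (2 - κ) := by
    refine le_trans (Nat.cast_le.mpr card_image_le) ?_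
    rw [card_product, Nat.card_Icc, Nat.add_sub_cancel, Nat.cast_mul]
    have hβ' : (1 : ℝ) ≤ β := by exact_mod_cast hβ1
    have r1 : (T.card : ℝ) ≤ (β : ℝ) ^ 2 * (B : ℝ) ^ (2 - 2 * κ) := by
      refine hT.trans ((Real.rpow_le_rpow_of_exponent_le (z := 2 - 2 * κ) (by
        push_cast; nlinarith) (by linarith)).trans ?_)
      rw [Nat.cast_mul, Real.mul_rpow (by positivity) hBp.le, ← Real.rpow_two]
      exact mul_le_mul_of_nonneg_right (Real.rpow_le_rpow_of_exponent_le hβ' (by linarith))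
        (by positivity)
    calc _ ≤ (B : ℝ) ^ κ * ((β : ℝ) ^ 2 * (B : ℝ) ^ (2 - 2 * κ)) := by gcongr
      _ = _ := by rw [mul_left_comm, ← Real.rpow_add hBp]; congr 2; ring
  refine le_trans (Nat.cast_le.mpr ((card_le_card hsub).trans ((card_union_le _ _).trans
    (Nat.add_le_add_left (card_union_le _ _) _)))) ?_
  rw [card_singleton]
  push_cast at c1 c2 ⊢
  nlinarith [sq_nonneg (2 * (B0 : ℝ) + 1)]

theorem rho_sq {n : ℕ} (H : All7) (P : Fm n) (b : ℤ) (hq : ∀ i, P.q i = 0)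
    (W : MvPolynomial (Fin 2) ℤ) (D : ℕ) (hW : ∀ (c : ℤ) (t : ℤ × ℤ),
      MvPolynomial.eval ![c * t.1, c * t.2] W = c ^ D * ∏ i, ev (P.F i) (1, 0) (shr (-b) t)) :
    ∃ C : ℝ, 0 ≤ C ∧ ∀ p : ℕ, p.Prime → (rho W (p ^ 2) : ℝ) ≤ C * (p : ℝ) ^ 2 := by
  classical
  obtain ⟨E, hE, h⟩ := P.loc H hq
  refine ⟨(E.natAbs ^ 2 + (1 + ∑ i, P.r i) : ℕ), by positivity, fun p hp => ?_⟩
  have : NeZero (p ^ 2) := ⟨pow_ne_zero 2 hp.ne_zero⟩
  suffices rho W (p ^ 2) ≤ (E.natAbs ^ 2 + (1 + ∑ i, P.r i)) * p ^ 2 by exact_mod_cast this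
  by_cases hpE : (p : ℤ) ∣ E
  · have h1 := Nat.le_of_dvd (Int.natAbs_pos.mpr hE) (Int.natCast_dvd.mp hpE)
    refine (rho_le W _).trans ?_
    rw [sq]
    exact Nat.mul_le_mul_right _ ((Nat.pow_le_pow_left h1 2).trans (Nat.le_add_right _ _))
  obtain ⟨Xs, hX, hX2⟩ := h p hp hpE
  have hpz : Prime (p : ℤ) := Nat.prime_iff_prime_int.mp hp
  have hsub : univ.filter (fun v : Fin 2 → ZMod (p ^ 2) => MvPolynomial.aeval v W = 0) ⊆
      (range p ×ˢ range p).image (fun z : ℕ × ℕ =>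
        ![((p * z.1 : ℕ) : ZMod (p ^ 2)), ((p * z.2 : ℕ) : ZMod (p ^ 2))]) ∪
      (Xs ×ˢ univ).image (fun z : ℤ × ZMod (p ^ 2) =>
        ![(z.1 : ZMod (p ^ 2)) * z.2, z.2 + (b : ZMod (p ^ 2)) * ((z.1 : ZMod (p ^ 2)) * z.2)]) := by
    intro v hv
    have hv0 : v = ![(((v 0).val : ℕ) : ZMod (p ^ 2)), (((v 1).val : ℕ) : ZMod (p ^ 2))] := by
      funext i
      fin_cases i <;> simp
    have l0 := ZMod.val_lt (v 0)
    have l1 := ZMod.val_lt (v 1)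
    generalize (v 0).val = x at hv0 l0
    generalize (v 1).val = y at hv0 l1
    subst hv0
    by_cases hg : p ∣ Int.gcd x y
    · rw [Int.gcd_natCast_natCast, Nat.dvd_gcd_iff] at hg
      obtain ⟨⟨i, rfl⟩, ⟨j, rfl⟩⟩ := hg
      rw [sq] at l0 l1
      exact mem_union_left _ (mem_image.mpr ⟨(i, j), mem_product.mpr
        ⟨mem_range.mpr (Nat.lt_of_mul_lt_mul_left l0), mem_range.mpr (Nat.lt_of_mul_lt_mul_left l1)⟩,
        rfl⟩)
    obtain ⟨t, t1, t2, t3⟩ := exists_prim x y (fun h0 => hg (h0 ▸ dvd_zero p))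
    have h1 := (dvd_iff W (p ^ 2) x y).mpr (by simpa using (mem_filter.mp hv).2)
    generalize Int.gcd x y = g at hg t2 t3
    rw [t2, t3, hW, Nat.cast_pow] at h1
    obtain ⟨z, hz, h2⟩ := hX2 _ (gcd_shr _ _ t1) ((((Prime.coprime_iff_not_dvd hpz).mpr
      (fun hd => hg (Int.natCast_dvd_natCast.mp hd))).pow).dvd_of_dvd_mul_left h1)
    have h3 : (((x : ℤ) - z * (y - b * x) : ℤ) : ZMod (p ^ 2)) = 0 := by
      rw [ZMod.intCast_zmod_eq_zero_iff_dvd, Nat.cast_pow, t2, t3]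
      refine (h2.mul_left g).trans (dvd_of_eq ?_)
      simp only [shr]
      ring
    push_cast at h3
    refine mem_union_right _ (mem_image.mpr ⟨(z, (y : ZMod (p ^ 2)) - b * x),
      mem_product.mpr ⟨hz, mem_univ _⟩, ?_⟩)
    simp only [← sub_eq_zero.mp h3, sub_add_cancel]
  rw [rho_eq]
  refine (card_le_card hsub).trans ((card_union_le _ _).trans
    ((Nat.add_le_add card_image_le card_image_le).trans ?_))
  simp only [card_product, card_range, card_univ, ZMod.card]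
  nlinarith [Nat.mul_le_mul_right (p ^ 2) hX, Nat.zero_le (E.natAbs ^ 2 * p ^ 2)]

open Classical in
theorem free (H : All7) (n : ℕ) (F : Fin (n + 1) → MvPolynomial (Fin 2) ℤ) (d : Fin (n + 1) → ℕ)
    (hirr : ∀ i, Irreducible (F i)) (hne : ∀ i j, i ≠ j → ¬ Associated (F i) (F j))
    (hhom : ∀ i, (F i).IsHomogeneous (d i)) (hd : ∀ i, d i ≤ 7) :
    ∃ c : ℝ, HasProd (fun p : Nat.Primes => 1 - (rho (∏ i, F i) (p ^ 2) : ℝ) / (p : ℝ) ^ 4) c ∧
      ((∀ p : ℕ, p.Prime → rho (∏ i, F i) (p ^ 2) < p ^ 4) → 0 < c) ∧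
      ∃ δ K : ℝ, 0 < δ ∧ ∀ B : ℕ, 1 ≤ B → ∀ x0 x1 y0 y1 : ℤ, -(B : ℤ) ≤ x0 → x0 ≤ x1 → x1 ≤ B →
        -(B : ℤ) ≤ y0 → y0 ≤ y1 → y1 ≤ B →
        |(((Ioc x0 x1 ×ˢ Ioc y0 y1).filter
            (fun t : ℤ × ℤ => Squarefree (MvPolynomial.eval ![t.1, t.2] (∏ i, F i)))).card : ℝ) -
          c * (((x1 : ℝ) - x0) * ((y1 : ℝ) - y0))| ≤ K * (B : ℝ) ^ (2 - δ) := by
  obtain ⟨P, b, hq, hW⟩ := exists_fm n F d hirr hne hhom hd
  obtain ⟨C, hC, hr⟩ := rho_sq H P b hq _ _ hW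
  choose K _ hK using fun i => (all.basic _ _ _ (hom_inr (hhom i))).2.2.2
  refine sieve _ (∑ i, d i) (∏ i, (K i : ℝ)) C (by positivity) hC (fun B _ x y hx hy => ?_)
    (fewSq H P b hq _ _ hW) hr
  rw [map_prod, ← prod_pow_eq_pow_sum, ← prod_mul_distrib, Int.cast_prod, abs_prod]
  refine prod_le_prod (fun _ _ => abs_nonneg _) fun i _ => ?_
  have := (hK i 1 (1, 0) (by simp) (by simp)).2 B (x, y) hx hy
  rw [ev_inr, pow_zero, mul_one] at this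
  exact_mod_cast this

end Pool.Agent.MP_542436_nt.Sq
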