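import Pool.Agent.MP_542436_nt.H5.Main

set_option autoImplicit false

namespace Pool.Agent.MP_542436_nt.Sq

open Finset ArithmeticFunction

/-- The number of zeros of `F` modulo `m`. -/
noncomputable def rho (F : MvPolynomial (Fin 2) ℤ) (m : ℕ) : ℕ :=
  Nat.card {v : Fin 2 → ZMod m // MvPolynomial.aeval v F = 0}

theorem hom_aeval {R S : Type} [CommRing R] [CommRing S] (φ : R →+* S) (v : Fin 2 → R)
    (F : MvPolynomial (Fin 2) ℤ) :
    φ (MvPolynomial.aeval v F) = MvPolynomial.aeval (fun i => φ (v i)) F :=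
  MvPolynomial.comp_aeval_apply v φ.toIntAlgHom F

theorem rho_mul (F : MvPolynomial (Fin 2) ℤ) {m n : ℕ} (h : m.Coprime n) :
    rho F (m * n) = rho F m * rho F n := by
  unfold rho
  rw [← Nat.card_prod]
  let e := ZMod.chineseRemainder h
  have k1 : ∀ v : Fin 2 → ZMod (m * n), (e (MvPolynomial.aeval v F)).1 =
      MvPolynomial.aeval (fun i => (e (v i)).1) F := fun v =>
    hom_aeval ((RingHom.fst _ _).comp e.toRingHom) v F
  have k2 : ∀ v : Fin 2 → ZMod (m * n), (e (MvPolynomial.aeval v F)).2 =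
      MvPolynomial.aeval (fun i => (e (v i)).2) F := fun v =>
    hom_aeval ((RingHom.snd _ _).comp e.toRingHom) v F
  refine Nat.card_congr ⟨fun v => (⟨fun i => (e (v.1 i)).1, by rw [← k1, v.2]; simp⟩,
    ⟨fun i => (e (v.1 i)).2, by rw [← k2, v.2]; simp⟩),
    fun w => ⟨fun i => e.symm (w.1.1 i, w.2.1 i), ?_⟩, fun v => ?_, fun w => ?_⟩
  · apply e.injective
    rw [_root_.map_zero]
    ext
    · rw [k1]; simpa using w.1.2
    · rw [k2]; simpa using w.2.2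
  · ext i; simp
  · ext i <;> simp

theorem rho_one (F : MvPolynomial (Fin 2) ℤ) : rho F 1 = 1 := by
  unfold rho
  rw [Nat.card_eq_one_iff_unique]
  exact ⟨⟨fun a b => Subtype.ext (funext fun _ => Subsingleton.elim _ _)⟩,
    ⟨⟨0, Subsingleton.elim _ _⟩⟩⟩

open Classical in
theorem rho_eq (F : MvPolynomial (Fin 2) ℤ) (m : ℕ) [NeZero m] :
    rho F m = (univ.filter (fun v : Fin 2 → ZMod m => MvPolynomial.aeval v F = 0)).card := by
  unfold rho
  rw [Nat.card_eq_fintype_card, Fintype.card_subtype]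

theorem rho_le (F : MvPolynomial (Fin 2) ℤ) (m : ℕ) [NeZero m] : rho F m ≤ m ^ 2 := by
  rw [rho_eq]
  refine (card_filter_le _ _).trans ?_
  simp

theorem dvd_iff (F : MvPolynomial (Fin 2) ℤ) (m : ℕ) (a b : ℤ) :
    (m : ℤ) ∣ MvPolynomial.eval ![a, b] F ↔
      MvPolynomial.aeval ![(a : ZMod m), (b : ZMod m)] F = 0 := by
  rw [← ZMod.intCast_zmod_eq_zero_iff_dvd]
  have := hom_aeval (Int.castRingHom (ZMod m)) ![a, b] F
  rw [MvPolynomial.aeval_eq_eval] at this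
  simp only [eq_intCast] at this
  rw [this]
  congr! 3
  funext i
  fin_cases i <;> rfl

theorem cnt_int (m : ℕ) [NeZero m] (x0 x1 : ℤ) (h : x0 ≤ x1) (r : ZMod m) :
    |(((Ioc x0 x1).filter (fun a : ℤ => (a : ZMod m) = r)).card : ℝ) - ((x1 : ℝ) - x0) / m| ≤ 1 := by
  have hm : (0 : ℤ) < m := by exact_mod_cast Nat.pos_of_ne_zero (NeZero.ne m)
  have e : (Ioc x0 x1).filter (fun a : ℤ => (a : ZMod m) = r) =
      (Ioc x0 x1).filter (fun a : ℤ => a ≡ (r.val : ℤ) [ZMOD m]) := by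
    apply filter_congr
    intro a _
    rw [← ZMod.intCast_eq_intCast_iff]
    simp
  have h1 := Int.Ioc_filter_modEq_card x0 x1 hm (r.val : ℤ)
  rw [e]
  have hq : (0 : ℚ) < ((m : ℤ) : ℚ) := by exact_mod_cast hm
  have hle : ((x0 : ℚ) - (r.val : ℤ)) / ((m : ℤ) : ℚ) ≤ ((x1 : ℚ) - (r.val : ℤ)) / ((m : ℤ) : ℚ) := by
    gcongr
  rw [max_eq_left (sub_nonneg.mpr (Int.floor_le_floor hle))] at h1
  have a1 := Int.floor_le (((x0 : ℚ) - (r.val : ℤ)) / ((m : ℤ) : ℚ))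
  have a2 := Int.lt_floor_add_one (((x0 : ℚ) - (r.val : ℤ)) / ((m : ℤ) : ℚ))
  have b1 := Int.floor_le (((x1 : ℚ) - (r.val : ℤ)) / ((m : ℤ) : ℚ))
  have b2 := Int.lt_floor_add_one (((x1 : ℚ) - (r.val : ℤ)) / ((m : ℤ) : ℚ))
  have h2 : ((((Ioc x0 x1).filter (fun a : ℤ => a ≡ (r.val : ℤ) [ZMOD m])).card : ℤ) : ℚ) =
      ((⌊((x1 : ℚ) - (r.val : ℤ)) / ((m : ℤ) : ℚ)⌋ : ℤ) : ℚ) -
        ((⌊((x0 : ℚ) - (r.val : ℤ)) / ((m : ℤ) : ℚ)⌋ : ℤ) : ℚ) := by
    rw [h1]; push_cast; rfl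
  have h3 : ((x1 : ℚ) - x0) / m = ((x1 : ℚ) - (r.val : ℤ)) / ((m : ℤ) : ℚ) -
      ((x0 : ℚ) - (r.val : ℤ)) / ((m : ℤ) : ℚ) := by push_cast; ring
  have h4 : |((((Ioc x0 x1).filter (fun a : ℤ => a ≡ (r.val : ℤ) [ZMOD m])).card : ℤ) : ℚ) -
      ((x1 : ℚ) - x0) / m| ≤ 1 := by
    rw [h2, h3, abs_le]; constructor <;> linarith
  exact_mod_cast h4

open Classical in
theorem cnt_box (F : MvPolynomial (Fin 2) ℤ) (m : ℕ) (hm : 1 ≤ m) (x0 x1 y0 y1 : ℤ) (L : ℝ)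
    (hx : x0 ≤ x1) (hy : y0 ≤ y1) (hxL : (x1 : ℝ) - x0 ≤ L) (hyL : (y1 : ℝ) - y0 ≤ L) :
    |(((Ioc x0 x1 ×ˢ Ioc y0 y1).filter
        (fun t : ℤ × ℤ => (m : ℤ) ∣ MvPolynomial.eval ![t.1, t.2] F)).card : ℝ) -
      rho F m / (m : ℝ) ^ 2 * (((x1 : ℝ) - x0) * ((y1 : ℝ) - y0))| ≤ (m : ℝ) ^ 2 * (2 * L + 1) := by
  have : NeZero m := ⟨by omega⟩
  have hm1 : (1 : ℝ) ≤ m := by exact_mod_cast hm
  set S := univ.filter (fun v : Fin 2 → ZMod m => MvPolynomial.aeval v F = 0) with hS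
  have h1 := card_eq_sum_card_fiberwise (s := (Ioc x0 x1 ×ˢ Ioc y0 y1).filter
        (fun t : ℤ × ℤ => (m : ℤ) ∣ MvPolynomial.eval ![t.1, t.2] F)) (t := S)
    (f := fun t : ℤ × ℤ => ![(t.1 : ZMod m), (t.2 : ZMod m)]) (fun t ht => by
      simp only [hS, coe_filter, mem_univ, true_and, Set.mem_ofPred_eq] at ht ⊢
      exact (dvd_iff F m _ _).mp ht.2)
  have h2 : ∀ v ∈ S, (((Ioc x0 x1 ×ˢ Ioc y0 y1).filter
        (fun t : ℤ × ℤ => (m : ℤ) ∣ MvPolynomial.eval ![t.1, t.2] F)).filter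
        (fun t : ℤ × ℤ => ![(t.1 : ZMod m), (t.2 : ZMod m)] = v)).card =
      ((Ioc x0 x1).filter (fun a : ℤ => (a : ZMod m) = v 0)).card *
        ((Ioc y0 y1).filter (fun a : ℤ => (a : ZMod m) = v 1)).card := by
    intro v hv
    rw [← card_product, ← filter_product, filter_filter]
    congr 1
    apply filter_congr
    intro t _
    simp only [hS, mem_filter, mem_univ, true_and] at hv
    constructor
    · rintro ⟨-, rfl⟩
      exact ⟨rfl, rfl⟩
    · rintro ⟨a1, a2⟩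
      have : ![(t.1 : ZMod m), (t.2 : ZMod m)] = v := by
        funext i
        fin_cases i
        · exact a1
        · exact a2
      exact ⟨by rw [dvd_iff, this]; exact hv, this⟩
  rw [sum_congr rfl h2] at h1
  have hr : (rho F m : ℝ) = S.card := by rw [rho_eq]
  have hr2 : (S.card : ℝ) ≤ (m : ℝ) ^ 2 := by rw [← hr]; exact_mod_cast rho_le F m
  have hx' : (0 : ℝ) ≤ (x1 : ℝ) - x0 := by rw [sub_nonneg]; exact_mod_cast hx
  have hy' : (0 : ℝ) ≤ (y1 : ℝ) - y0 := by rw [sub_nonneg]; exact_mod_cast hy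
  have e : (S.card : ℝ) / (m : ℝ) ^ 2 * (((x1 : ℝ) - x0) * ((y1 : ℝ) - y0)) =
      ∑ _v ∈ S, ((x1 : ℝ) - x0) / m * (((y1 : ℝ) - y0) / m) := by
    rw [sum_const, nsmul_eq_mul]; field_simp
  rw [h1, hr, e]
  push_cast
  rw [← sum_sub_distrib]
  refine (abs_sum_le_sum_abs _ _).trans ((sum_le_card_nsmul _ _ (2 * L + 1) fun v _ => ?_).trans ?_)
  · have a := cnt_int m x0 x1 hx (v 0)
    have b := cnt_int m y0 y1 hy (v 1)
    have c1 : ((x1 : ℝ) - x0) / m ≤ L := (div_le_self hx' hm1).trans hxL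
    have c2 : ((y1 : ℝ) - y0) / m ≤ L := (div_le_self hy' hm1).trans hyL
    have c3 : 0 ≤ ((x1 : ℝ) - x0) / m := by positivity
    have c4 : 0 ≤ ((y1 : ℝ) - y0) / m := by positivity
    generalize ((x1 : ℝ) - x0) / m = u at *
    generalize ((y1 : ℝ) - y0) / m = w at *
    generalize ((((Ioc x0 x1).filter (fun a : ℤ => (a : ZMod m) = v 0)).card : ℕ) : ℝ) = U at *
    generalize ((((Ioc y0 y1).filter (fun a : ℤ => (a : ZMod m) = v 1)).card : ℕ) : ℝ) = W at *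
    have : U * W - u * w = (U - u) * (W - w) + u * (W - w) + (U - u) * w := by ring
    rw [this]
    refine (abs_add_three _ _ _).trans ?_
    rw [abs_mul, abs_mul, abs_mul, abs_of_nonneg c3, abs_of_nonneg c4]
    have d1 := abs_nonneg (U - u)
    have d2 := abs_nonneg (W - w)
    nlinarith
  · rw [nsmul_eq_mul]
    have : 0 ≤ L := hx'.trans hxL
    gcongr

open Classical in
theorem moeb (n : ℤ) (hn : n ≠ 0) (Y : ℕ)
    (hY : ∀ d : ℕ, Squarefree d → (d : ℤ) ^ 2 ∣ n → d ≤ Y) :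
    ∑ d ∈ (Icc 1 Y).filter (fun d : ℕ => (d : ℤ) ^ 2 ∣ n), ((moebius d : ℤ) : ℝ) =
      if Squarefree n then 1 else 0 := by
  obtain ⟨c, a, hac, hc⟩ := Nat.sq_mul_squarefree n.natAbs
  have ha : a ≠ 0 := by rintro rfl; simp at hac; exact hn (by omega)
  have hd : ∀ d : ℕ, (d : ℤ) ^ 2 ∣ n ↔ d ^ 2 ∣ a ^ 2 * c := fun d => by
    rw [hac, ← Int.natCast_dvd]; push_cast; rfl
  have h1 : ∑ d ∈ (Icc 1 Y).filter (fun d : ℕ => (d : ℤ) ^ 2 ∣ n), moebius d =
      ∑ d ∈ a.divisors, moebius d := by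
    rw [← sum_filter_ne_zero, ← sum_filter_ne_zero (s := a.divisors)]
    congr 1
    ext d
    simp only [mem_filter, mem_Icc, Nat.mem_divisors, moebius_ne_zero_iff_squarefree]
    constructor
    · rintro ⟨⟨-, h⟩, hs⟩
      rw [hd, sq] at h
      exact ⟨⟨(hs.dvd_pow_iff_dvd two_ne_zero).mp
        (hc.dvd_of_squarefree_of_mul_dvd_mul_left h), ha⟩, hs⟩
    · rintro ⟨⟨h, -⟩, hs⟩
      have := (hd d).mpr ((pow_dvd_pow_of_dvd h 2).mul_right c)
      exact ⟨⟨⟨Nat.pos_of_ne_zero hs.ne_zero, hY d hs this⟩, this⟩, hs⟩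
  have h2 : ∑ d ∈ a.divisors, moebius d = if a = 1 then 1 else 0 := by
    have := congrArg (fun f : ArithmeticFunction ℤ => f a) moebius_mul_coe_zeta
    simpa only [coe_mul_zeta_apply, one_apply] using this
  have h3 : Squarefree n ↔ a = 1 := by
    rw [← Int.squarefree_natAbs, ← hac]
    constructor
    · intro h
      exact Nat.isUnit_iff.mp (h a ⟨c, by ring⟩)
    · rintro rfl
      simpa using hc
  rw [← Int.cast_sum, h1, h2]
  simp only [h3]
  split_ifs <;> simp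

open Classical in
theorem moeb_le (n : ℤ) (hn : n ≠ 0) (Y : ℕ) :
    |∑ d ∈ (Icc 1 Y).filter (fun d : ℕ => (d : ℤ) ^ 2 ∣ n), ((moebius d : ℤ) : ℝ)| ≤
      2 ^ n.natAbs.primeFactors.card := by
  rw [← sum_filter_ne_zero]
  refine (abs_sum_le_sum_abs _ _).trans ((sum_le_card_nsmul _ _ 1 fun d _ => ?_).trans ?_)
  · exact_mod_cast abs_moebius_le_one
  rw [nsmul_eq_mul, mul_one]
  have : (((Icc 1 Y).filter (fun d : ℕ => (d : ℤ) ^ 2 ∣ n)).filter
      (fun d => ((moebius d : ℤ) : ℝ) ≠ 0)).card ≤ n.natAbs.primeFactors.powerset.card := by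
    apply card_le_card_of_injOn Nat.primeFactors
    · intro d hd
      simp only [coe_filter, mem_filter, Set.mem_ofPred_eq] at hd
      rw [mem_coe, mem_powerset]
      exact Nat.primeFactors_mono (Int.natCast_dvd.mp ((dvd_pow_self _ two_ne_zero).trans hd.1.2))
        (Int.natAbs_ne_zero.mpr hn)
    · intro d hd e he h
      simp only [coe_filter, mem_filter, Set.mem_ofPred_eq, ne_eq, Int.cast_eq_zero] at hd he
      rw [← Nat.prod_primeFactors_of_squarefree (moebius_ne_zero_iff_squarefree.mp hd.2),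
        ← Nat.prod_primeFactors_of_squarefree (moebius_ne_zero_iff_squarefree.mp he.2), h]
  rw [card_powerset] at this
  exact_mod_cast this

end Pool.Agent.MP_542436_nt.Sq
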