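import Pool.Agent.MP_542436_nt.H5.Main
import Pool.Agent.MP_542436_nt.Sp.Spec

set_option autoImplicit false

namespace Pool.Agent.MP_542436_nt.Sq

open Polynomial H5

theorem defect1 (η : ℝ) (B : ℕ) (D n : ℤ) (hη : 0 < η) (hη' : η ≤ 1 / 4) (hB : 2 ≤ B)
    (hn : n ≠ 0) (hA : ¬ PA η B D n) (hBn : ¬ PB η B D n)
    (hno : ∀ p : ℕ, p.Prime → (B : ℝ) ^ (2 - η) < p → ¬ (p : ℤ) ^ 2 ∣ n) :
    ∃ g : ℕ, Squarefree g ∧ (g : ℤ) ∣ n ∧ IsCoprime (g : ℤ) D ∧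
      |(n : ℝ)| ≤ g * (B : ℝ) ^ (3 * η) := by
  have hB1 : (1 : ℝ) < B := by exact_mod_cast hB
  have hB0 : (0 : ℝ) < B := by linarith
  set N := n.natAbs with hNdef
  have hN : N ≠ 0 := Int.natAbs_ne_zero.mpr hn
  have hNr : |(n : ℝ)| = (N : ℝ) := by
    rw [hNdef, Nat.cast_natAbs]; push_cast; rfl
  have hdv : ∀ m : ℕ, m ∣ N → (m : ℤ) ∣ n := fun m hm => Int.natCast_dvd.mpr hm
  set Y := (B : ℝ) ^ η with hY
  set P := (B : ℝ) ^ (2 - η) with hP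
  have hY1 : 1 < Y := Real.one_lt_rpow hB1 hη
  have hYP : Y * Y ≤ P := by
    rw [hY, hP, ← Real.rpow_add hB0]
    exact Real.rpow_le_rpow_of_exponent_le hB1.le (by linarith)
  have h3 : (B : ℝ) ^ (3 * η) = Y * Y * Y := by
    rw [hY, ← Real.rpow_add hB0, ← Real.rpow_add hB0]; congr 1; ring
  obtain ⟨b, u, hbG, hb, hG⟩ := split_primes (fun p => (p : ℤ) ∣ D) N hN
  obtain ⟨c, a, hac, hc⟩ := Nat.sq_mul_squarefree u
  have hNe : N = b * a ^ 2 * c := by rw [hbG, ← hac]; ring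
  have hbY : (b : ℝ) ≤ Y := by
    by_contra hcon
    exact hA ⟨b, hdv b ⟨u, hbG⟩, hb, not_le.mp hcon⟩
  have hau : a ∣ u := ⟨a * c, by rw [← hac]; ring⟩
  have hcu : c ∣ u := ⟨a ^ 2, by rw [← hac]; ring⟩
  have hsqa : ∀ d : ℕ, d ∣ a → (d : ℤ) ^ 2 ∣ n := fun d hd => by
    have := hdv _ ((pow_dvd_pow_of_dvd hd 2).trans ⟨b * c, by rw [hNe]; ring⟩)
    push_cast at this
    exact this
  have hcopa : ∀ d : ℕ, d ∣ u → IsCoprime (d : ℤ) D := fun d hd =>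
    cop_of_primes d D (fun p hp hpd => hG p hp (hpd.trans hd))
  have hnoB : ∀ d : ℕ, d ∣ a → Y ≤ d → (d : ℝ) ≤ P → False := fun d hd h1 h2 =>
    hBn ⟨d, hcopa d (hd.trans hau), hsqa d hd, h1, h2⟩
  have haY : (a : ℝ) < Y := by
    by_contra hcon
    have hpa : ∀ p : ℕ, p.Prime → p ∣ a → (p : ℝ) < Y := by
      intro p hp hpa
      by_contra hc2
      refine hnoB p hpa (not_lt.mp hc2) ?_
      by_contra hc3
      exact hno p hp (not_le.mp hc3) (hsqa p hpa)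
    obtain ⟨d, hd, h1, h2⟩ := mid_divisor a Y hY1 (not_lt.mp hcon) hpa
    exact hnoB d hd h1 (h2.trans hYP)
  have hba : (b : ℝ) * a ^ 2 ≤ Y * Y * Y := by
    have h0 : (0 : ℝ) ≤ a := Nat.cast_nonneg a
    have h0' : (0 : ℝ) ≤ b := Nat.cast_nonneg b
    have : (a : ℝ) ^ 2 ≤ Y * Y := by nlinarith
    calc (b : ℝ) * a ^ 2 ≤ Y * (Y * Y) := by gcongr
      _ = _ := by ring
  have hc0 : (0 : ℝ) ≤ c := Nat.cast_nonneg c
  refine ⟨c, hc, hdv c ⟨b * a ^ 2, by rw [hNe]; ring⟩, hcopa c hcu, ?_⟩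
  rw [hNr, hNe, h3]
  push_cast
  nlinarith

theorem no_big (η x : ℝ) (B : ℕ) (D n : ℤ) (hη' : η ≤ 1 / 1000) (hB : 1 ≤ B)
    (hC : ¬ PC η B D n) (hsz : |(n : ℝ)| ≤ (B : ℝ) ^ (2 * x + 1999 / 1000))
    (hD : ¬ ∃ p : ℕ, p.Prime ∧ (B : ℝ) ^ ((1999 : ℝ) / 1000) ≤ p ∧ (p : ℝ) ≤ (B : ℝ) ^ x ∧
      (p : ℤ) ^ 2 ∣ n) (p : ℕ) (hp : p.Prime) (hPp : (B : ℝ) ^ (2 - η) < p) :
    ¬ (p : ℤ) ^ 2 ∣ n := by
  intro h2
  have hB1 : (1 : ℝ) ≤ B := by exact_mod_cast hB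
  have hB0 : (0 : ℝ) < B := by linarith
  have h0 : (B : ℝ) ^ ((1999 : ℝ) / 1000) ≤ (B : ℝ) ^ (2 - η) :=
    Real.rpow_le_rpow_of_exponent_le hB1 (by linarith)
  have hx : (B : ℝ) ^ x < p := by
    by_contra hc
    exact hD ⟨p, hp, h0.trans hPp.le, not_lt.mp hc, h2⟩
  have h3 : p ^ 2 ∣ n.natAbs := Int.natCast_dvd.mp (by exact_mod_cast h2)
  obtain ⟨E, hE⟩ := h3
  have h1 := big_of_not_PC hC p 2 E (Or.inl rfl) hp.one_lt (fun q hq hd => by
    rwa [(Nat.prime_dvd_prime_iff_eq hq hp).mp hd]) (by rw [hE]; ring)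
  have hNr : |(n : ℝ)| = (p : ℝ) ^ 2 * E := by
    have : |(n : ℝ)| = (n.natAbs : ℝ) := by rw [Nat.cast_natAbs]; push_cast; rfl
    rw [this, hE]; push_cast; ring
  have e : (B : ℝ) ^ (2 * x + 1999 / 1000) =
      ((B : ℝ) ^ x) ^ 2 * (B : ℝ) ^ ((1999 : ℝ) / 1000) := by
    rw [Real.rpow_add hB0, sq, ← Real.rpow_add hB0 x x, two_mul]
  rw [hNr, e] at hsz
  have h4 : ((B : ℝ) ^ x) ^ 2 < (p : ℝ) ^ 2 := by gcongr
  have h5 := mul_lt_mul'' h4 (h0.trans_lt h1) (by positivity) (by positivity)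
  linarith

theorem eval_homog (g : ℤ[X]) (r : ℕ) (x : Fin 2 → ℤ) :
    MvPolynomial.eval x (g.homogenize r) = hv g r (x 0, x 1) := by
  rw [homogenize, hv, map_sum, Finset.Nat.sum_antidiagonal_eq_sum_range_succ_mk]
  refine Finset.sum_congr rfl fun k _ => ?_
  rw [MvPolynomial.eval_monomial, Finsupp.prod_fintype _ _ (by simp)]
  simp [Fin.prod_univ_two, mul_assoc]

theorem ev_pure (F : MP) (r : ℕ) (hF : BiHom F 0 r) (s t : ℤ × ℤ) :
    ev F s t = hv (gt F (1, 0)) r t := by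
  obtain ⟨sw, h1, h2⟩ := all.sym.1
  have hb := all.basic _ _ _ (h2 F 0 r hF)
  rw [(all.basic _ _ _ hF).2.1, ← h1 F s, ← h1 F (1, 0), ← hb.2.1, ← hb.2.1]
  simp [hv]

theorem irr_pure (F : MP) (r : ℕ) (hF : BiHom F 0 r) (hr : 1 ≤ r) (hi : Irreducible F)
    (hnz : ev F (1, 0) (1, 0) ≠ 0) : (gt F (1, 0)).natDegree = r ∧
      Irreducible ((gt F (1, 0)).map (Int.castRingHom ℚ)) := by
  obtain ⟨b1, -, b3, -⟩ := all.basic _ _ _ hF
  have hd : (gt F (1, 0)).natDegree = r :=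
    natDegree_eq_of_le_of_coeff_ne_zero (b1 _) (by rw [b3]; exact hnz)
  have hFe : F = MvPolynomial.rename Sum.inr ((gt F (1, 0)).homogenize r) := by
    apply MvPolynomial.funext
    intro x
    rw [MvPolynomial.eval_rename, eval_homog, ← ev_pure F r hF (x (.inl 0), x (.inl 1))]
    unfold ev
    congr 2
    funext k
    rcases k with k | k <;> fin_cases k <;> rfl
  generalize gt F (1, 0) = g at hd hFe
  have hg0 : g ≠ 0 := by rintro rfl; simp at hd; omega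
  have key : ∀ u : ℤ[X], IsUnit (MvPolynomial.rename (Sum.inr : Fin 2 → Fin 2 ⊕ Fin 2)
      (u.homogenize u.natDegree)) → IsUnit u := by
    intro u hu
    have := hu.map (MvPolynomial.aeval (Sum.elim ![0, 0] ![(X : ℤ[X]), 1]))
    rwa [MvPolynomial.aeval_rename, Sum.elim_comp_inr, aeval_homogenize_X_one u le_rfl] at this
  have hirr : Irreducible g := by
    refine ⟨fun hu => ?_, fun u v huv => ?_⟩
    · have := natDegree_eq_zero_of_isUnit hu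
      omega
    · have hu : u ≠ 0 := by rintro rfl; exact hg0 (by simpa using huv)
      have hv' : v ≠ 0 := by rintro rfl; exact hg0 (by simpa using huv)
      rw [← hd, huv, natDegree_mul hu hv', homogenize_mul u v le_rfl le_rfl, map_mul] at hFe
      exact (hi.isUnit_or_isUnit hFe).imp (key u) (key v)
  exact ⟨hd, (IsPrimitive.Int.irreducible_iff_irreducible_map_cast
    (hirr.isPrimitive (by omega))).mp hirr⟩

end Pool.Agent.MP_542436_nt.Sq
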