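import Pool.Agent.MP_542436_nt.Sq.Loc

set_option autoImplicit false

namespace Pool.Agent.MP_542436_nt.Sq

open Finset ArithmeticFunction

/-- The terms of the singular series. -/
noncomputable def ff (F : MvPolynomial (Fin 2) ℤ) (d : ℕ) : ℝ :=
  ((moebius d : ℤ) : ℝ) * (rho F (d ^ 2) / (d : ℝ) ^ 4)

theorem rho_prod (F : MvPolynomial (Fin 2) ℤ) (C : ℝ) (hC : 0 ≤ C)
    (h : ∀ p : ℕ, p.Prime → (rho F (p ^ 2) : ℝ) ≤ C * (p : ℝ) ^ 2) (s : Finset ℕ)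
    (hs : ∀ p ∈ s, p.Prime) :
    (rho F ((∏ p ∈ s, p) ^ 2) : ℝ) ≤ C ^ s.card * ((∏ p ∈ s, p : ℕ) : ℝ) ^ 2 := by
  induction s using Finset.induction_on with
  | empty => simp [rho_one]
  | insert p s hp ih =>
    have hpp := hs p (mem_insert_self p s)
    have hc : Nat.Coprime p (∏ q ∈ s, q) := Nat.Coprime.prod_right fun q hq =>
      (Nat.coprime_primes hpp (hs q (mem_insert_of_mem hq))).mpr (by rintro rfl; exact hp hq)
    rw [prod_insert hp, mul_pow, rho_mul F (hc.pow 2 2), card_insert_of_notMem hp]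
    have h1 := h p hpp
    have h2 := ih fun q hq => hs q (mem_insert_of_mem hq)
    rw [Nat.cast_mul, Nat.cast_mul]
    calc _ ≤ (C * (p : ℝ) ^ 2) * (C ^ s.card * ((∏ q ∈ s, q : ℕ) : ℝ) ^ 2) := by gcongr
      _ = _ := by ring

theorem ff_le (F : MvPolynomial (Fin 2) ℤ) (C : ℝ) (hC : 0 ≤ C)
    (h : ∀ p : ℕ, p.Prime → (rho F (p ^ 2) : ℝ) ≤ C * (p : ℝ) ^ 2) :
    ∃ K : ℝ, 0 < K ∧ ∀ d : ℕ, ‖ff F d‖ ≤ K * (d : ℝ) ^ (-(7 / 4) : ℝ) := by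
  obtain ⟨K, hK, hω⟩ := H87.omega C (1 / 4) hC (by norm_num)
  refine ⟨K, hK, fun d => ?_⟩
  by_cases hd : Squarefree d
  swap
  · rw [ff, moebius_eq_zero_of_not_squarefree hd]
    simp only [Int.cast_zero, zero_mul, norm_zero]
    positivity
  have h0 : (0 : ℝ) < d := by exact_mod_cast Nat.pos_of_ne_zero hd.ne_zero
  have h1 := rho_prod F C hC h d.primeFactors (fun p hp => Nat.prime_of_mem_primeFactors hp)
  rw [Nat.prod_primeFactors_of_squarefree hd] at h1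
  have h2 := hω d hd.ne_zero
  have h3 : |((moebius d : ℤ) : ℝ)| = 1 := by exact_mod_cast abs_moebius_eq_one_of_squarefree hd
  rw [ff, Real.norm_eq_abs, abs_mul, h3, one_mul, abs_of_nonneg (by positivity),
    div_le_iff₀ (by positivity)]
  have e : (d : ℝ) ^ (-(7 / 4) : ℝ) * (d : ℝ) ^ 4 = (d : ℝ) ^ ((1 : ℝ) / 4) * (d : ℝ) ^ 2 := by
    rw [← Real.rpow_natCast, ← Real.rpow_natCast, ← Real.rpow_add h0, ← Real.rpow_add h0]
    norm_num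
  rw [mul_assoc, e, ← mul_assoc]
  exact h1.trans (by gcongr)

theorem series (F : MvPolynomial (Fin 2) ℤ) (C : ℝ) (hC : 0 ≤ C)
    (h : ∀ p : ℕ, p.Prime → (rho F (p ^ 2) : ℝ) ≤ C * (p : ℝ) ^ 2) :
    ∃ c : ℝ, HasProd (fun p : Nat.Primes => 1 - (rho F (p ^ 2) : ℝ) / (p : ℝ) ^ 4) c ∧
      ((∀ p : ℕ, p.Prime → rho F (p ^ 2) < p ^ 4) → 0 < c) ∧
      ∃ K : ℝ, 0 ≤ K ∧ ∀ Y : ℕ,
        |∑ d ∈ Icc 1 Y, ff F d - c| ≤ K * ((Y : ℝ) + 1) ^ (-(1 / 2) : ℝ) := by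
  obtain ⟨K, hK, hf⟩ := ff_le F C hC h
  have hs : Summable (fun d => ‖ff F d‖) := Summable.of_nonneg_of_le (fun _ => norm_nonneg _) hf
    ((Real.summable_nat_rpow.mpr (by norm_num)).mul_left K)
  have h0 : ff F 0 = 0 := by simp [ff]
  have hp : ∀ p : ℕ, p.Prime → ff F p = -((rho F (p ^ 2) : ℝ) / (p : ℝ) ^ 4) := by
    intro p hp
    rw [ff, moebius_apply_prime hp]; push_cast; ring
  have h1 : ff F 1 = 1 := by simp [ff, rho_one]
  have hE := EulerProduct.eulerProduct_hasProd (f := ff F) h1 (fun {m n} hmn => by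
    rw [ff, ff, ff, isMultiplicative_moebius.map_mul_of_coprime hmn, mul_pow,
      rho_mul F (hmn.pow 2 2)]
    push_cast
    rw [mul_pow, mul_div_mul_comm]; ring) hs h0
  have hP : HasProd (fun p : Nat.Primes => 1 - (rho F (p ^ 2) : ℝ) / (p : ℝ) ^ 4)
      (∑' n, ff F n) := by
    refine hE.congr_fun fun p => Eq.symm ?_
    rw [tsum_eq_sum (s := range 2) (fun e he => by
      rw [mem_range] at he
      rw [ff, moebius_apply_prime_pow p.2 (by omega), if_neg (by omega)]; simp)]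
    simp only [sum_range_succ, range_zero, sum_empty, pow_zero, pow_one, h1, hp p p.2]
    ring
  refine ⟨_, hP, fun hlt => ?_, ?_⟩
  · have hpos : ∀ p : Nat.Primes, 0 < 1 - (rho F (p ^ 2) : ℝ) / (p : ℝ) ^ 4 := by
      intro p
      have a : (0 : ℝ) < (p : ℕ) := by exact_mod_cast p.2.pos
      rw [sub_pos, div_lt_one (by positivity)]
      exact_mod_cast hlt p p.2
    have hne := tprod_one_add_ne_zero_of_summable (f := fun p : Nat.Primes => ff F p)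
      (fun p => by rw [hp p p.2, ← sub_eq_add_neg]; exact (hpos p).ne')
      (hs.comp_injective Subtype.val_injective)
    have e : (fun p : Nat.Primes => 1 + ff F p) =
        fun p : Nat.Primes => 1 - (rho F (p ^ 2) : ℝ) / (p : ℝ) ^ 4 := by
      funext p; rw [hp p p.2]; ring
    rw [e, hP.tprod_eq] at hne
    exact lt_of_le_of_ne (ge_of_tendsto' hP fun s => prod_nonneg fun p _ => (hpos p).le) hne.symm
  · have hS : Summable (fun i : ℕ => (((i + 1 : ℕ) : ℝ)) ^ (-(5 / 4) : ℝ)) :=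
      (summable_nat_add_iff 1).mpr (Real.summable_nat_rpow.mpr (by norm_num))
    refine ⟨K * ∑' i : ℕ, (((i + 1 : ℕ) : ℝ)) ^ (-(5 / 4) : ℝ),
      mul_nonneg hK.le (tsum_nonneg fun _ => by positivity), fun Y => ?_⟩
    have e1 : ∑ d ∈ Icc 1 Y, ff F d = ∑ d ∈ range (Y + 1), ff F d := by
      rw [range_eq_Ico, sum_eq_sum_Ico_succ_bot (by omega), h0, zero_add]
      rfl
    rw [e1, ← hs.of_norm.sum_add_tsum_nat_add (Y + 1), sub_add_cancel_left, abs_neg,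
      mul_right_comm]
    refine tsum_of_norm_bounded (hS.hasSum.mul_left _) fun i => (hf _).trans ?_
    have a0 : (0 : ℝ) < ((i + (Y + 1) : ℕ) : ℝ) := by positivity
    rw [show (-(7 / 4) : ℝ) = -(1 / 2) + -(5 / 4) by norm_num, Real.rpow_add a0, mul_assoc]
    have a1 : ((i + (Y + 1) : ℕ) : ℝ) ^ (-(1 / 2) : ℝ) ≤ ((Y : ℝ) + 1) ^ (-(1 / 2) : ℝ) :=
      Real.rpow_le_rpow_of_nonpos (by positivity) (by push_cast; linarith [Nat.cast_nonneg (α := ℝ) i])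
        (by norm_num)
    have a2 : ((i + (Y + 1) : ℕ) : ℝ) ^ (-(5 / 4) : ℝ) ≤ ((i + 1 : ℕ) : ℝ) ^ (-(5 / 4) : ℝ) :=
      Real.rpow_le_rpow_of_nonpos (by positivity) (by push_cast; linarith [Nat.cast_nonneg (α := ℝ) Y])
        (by norm_num)
    gcongr

/-- Few values vanish or have a large square divisor. -/
def FewSq (F : MvPolynomial (Fin 2) ℤ) : Prop :=
  ∀ η : ℝ, 0 < η → ∃ δ K : ℝ, 0 < δ ∧ 0 ≤ K ∧ ∀ B : ℕ, 1 ≤ B → ∀ E : Finset (ℤ × ℤ),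
    (∀ t ∈ E, |t.1| ≤ B ∧ |t.2| ≤ B ∧ (MvPolynomial.eval ![t.1, t.2] F = 0 ∨
      ∃ d : ℕ, Squarefree d ∧ (B : ℝ) ^ η < d ∧ (d : ℤ) ^ 2 ∣ MvPolynomial.eval ![t.1, t.2] F)) →
    (E.card : ℝ) ≤ K * (B : ℝ) ^ (2 - δ)

open Classical in
theorem sieve (F : MvPolynomial (Fin 2) ℤ) (D : ℕ) (K0 C : ℝ) (hK0 : 0 ≤ K0) (hC : 0 ≤ C)
    (hsz : ∀ B : ℕ, 1 ≤ B → ∀ a b : ℤ, |a| ≤ B → |b| ≤ B →
      |((MvPolynomial.eval ![a, b] F : ℤ) : ℝ)| ≤ K0 * (B : ℝ) ^ D)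
    (H1 : FewSq F) (h : ∀ p : ℕ, p.Prime → (rho F (p ^ 2) : ℝ) ≤ C * (p : ℝ) ^ 2) :
    ∃ c : ℝ, HasProd (fun p : Nat.Primes => 1 - (rho F (p ^ 2) : ℝ) / (p : ℝ) ^ 4) c ∧
      ((∀ p : ℕ, p.Prime → rho F (p ^ 2) < p ^ 4) → 0 < c) ∧
      ∃ δ K : ℝ, 0 < δ ∧ ∀ B : ℕ, 1 ≤ B → ∀ x0 x1 y0 y1 : ℤ, -(B : ℤ) ≤ x0 → x0 ≤ x1 → x1 ≤ B →
        -(B : ℤ) ≤ y0 → y0 ≤ y1 → y1 ≤ B →
        |(((Ioc x0 x1 ×ˢ Ioc y0 y1).filter
            (fun t : ℤ × ℤ => Squarefree (MvPolynomial.eval ![t.1, t.2] F))).card : ℝ) -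
          c * (((x1 : ℝ) - x0) * ((y1 : ℝ) - y0))| ≤ K * (B : ℝ) ^ (2 - δ) := by
  obtain ⟨c, hc1, hc2, K3, hK3, htail⟩ := series F C hC h
  refine ⟨c, hc1, hc2, ?_⟩
  obtain ⟨δ0, Ka, hδ0, hKa, hZ⟩ := H1 1 one_pos
  obtain ⟨η, hη, hη1, hη2⟩ : ∃ η : ℝ, 0 < η ∧ η ≤ δ0 / 2 ∧ η ≤ 1 / 10 :=
    ⟨min (δ0 / 2) (1 / 10), by positivity, min_le_left _ _, min_le_right _ _⟩
  obtain ⟨δ1, Kb, hδ1, hKb, hB⟩ := H1 η hη
  obtain ⟨K2, hK2, hω⟩ := H87.omega 2 (δ1 / 2 / (D + 1)) (by norm_num) (by positivity)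
  set θ := δ1 / 2 / (D + 1) with hθ
  have hθ0 : 0 < θ := by positivity
  obtain ⟨δ, hδ, hδa, hδb⟩ : ∃ δ : ℝ, 0 < δ ∧ δ ≤ δ1 / 2 ∧ δ ≤ η / 2 :=
    ⟨min (δ1 / 2) (η / 2), by positivity, min_le_left _ _, min_le_right _ _⟩
  refine ⟨δ, (1 + K2 * K0 ^ θ) * Kb + Ka + 5 + 4 * K3, hδ,
    fun B hB1 x0 x1 y0 y1 a1 a2 a3 b1 b2 b3 => ?_⟩
  have hB1' : (1 : ℝ) ≤ B := by exact_mod_cast hB1
  have hB0 : (0 : ℝ) < B := by linarith
  set R := Ioc x0 x1 ×ˢ Ioc y0 y1 with hR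
  set V : ℤ × ℤ → ℤ := fun t => MvPolynomial.eval ![t.1, t.2] F with hV
  set Y := ⌊(B : ℝ) ^ η⌋₊ with hY
  set A := ((x1 : ℝ) - x0) * ((y1 : ℝ) - y0) with hA
  have hYle : (Y : ℝ) ≤ (B : ℝ) ^ η := Nat.floor_le (by positivity)
  have hYlt : (B : ℝ) ^ η ≤ (Y : ℝ) + 1 := (Nat.lt_floor_add_one _).le
  have hbox : ∀ t ∈ R, |t.1| ≤ B ∧ |t.2| ≤ B := by
    intro t ht
    simp only [hR, mem_product, mem_Ioc] at ht
    constructor <;> rw [abs_le] <;> constructor <;> omega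
  have hx : (x1 : ℝ) - x0 ≤ 2 * B := by exact_mod_cast (show x1 - x0 ≤ 2 * (B : ℤ) by omega)
  have hy : (y1 : ℝ) - y0 ≤ 2 * B := by exact_mod_cast (show y1 - y0 ≤ 2 * (B : ℤ) by omega)
  have hx' : (0 : ℝ) ≤ (x1 : ℝ) - x0 := by rw [sub_nonneg]; exact_mod_cast a2
  have hy' : (0 : ℝ) ≤ (y1 : ℝ) - y0 := by rw [sub_nonneg]; exact_mod_cast b2
  have pw : ∀ u v : ℝ, u + v ≤ 2 - δ → (B : ℝ) ^ u * (B : ℝ) ^ v ≤ (B : ℝ) ^ (2 - δ) := by
    intro u v huv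
    rw [← Real.rpow_add hB0]
    exact Real.rpow_le_rpow_of_exponent_le hB1' huv
  let S : ℤ × ℤ → ℝ := fun t =>
    ∑ d ∈ (Icc 1 Y).filter (fun d : ℕ => (d : ℤ) ^ 2 ∣ V t), ((moebius d : ℤ) : ℝ)
  let bad : ℤ × ℤ → Prop := fun t =>
    V t = 0 ∨ ∃ d : ℕ, Squarefree d ∧ (B : ℝ) ^ η < d ∧ (d : ℤ) ^ 2 ∣ V t
  set M := (1 + K2 * K0 ^ θ) * (B : ℝ) ^ (δ1 / 2) with hM
  have e1 : ∀ t ∈ R, |(if Squarefree (V t) then (1 : ℝ) else 0) - S t| ≤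
      (if bad t then M else 0) + (if V t = 0 then (B : ℝ) ^ η else 0) := by
    intro t ht
    have hM0 : 0 ≤ M := by positivity
    by_cases h0 : V t = 0
    · rw [if_neg (by rw [h0]; exact not_squarefree_zero), if_pos (Or.inl h0), if_pos h0, zero_sub,
        abs_neg]
      refine (abs_sum_le_sum_abs _ _).trans ((sum_le_card_nsmul _ _ 1 fun d _ => by
        exact_mod_cast abs_moebius_le_one).trans ?_)
      rw [nsmul_eq_mul, mul_one]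
      have : (((Icc 1 Y).filter (fun d : ℕ => (d : ℤ) ^ 2 ∣ V t)).card : ℝ) ≤ Y := by
        exact_mod_cast (card_filter_le _ _).trans (by simp)
      linarith
    rw [if_neg h0, add_zero]
    by_cases hb : bad t
    · rw [if_pos hb]
      have u1 := moeb_le (V t) h0 Y
      have u2 := hω _ (Int.natAbs_ne_zero.mpr h0)
      have u3 : (((V t).natAbs : ℕ) : ℝ) ≤ K0 * (B : ℝ) ^ D := by
        rw [Nat.cast_natAbs, Int.cast_abs]
        exact hsz B hB1 _ _ (hbox t ht).1 (hbox t ht).2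
      have u4 : (((V t).natAbs : ℕ) : ℝ) ^ θ ≤ K0 ^ θ * (B : ℝ) ^ (δ1 / 2) := by
        refine (Real.rpow_le_rpow (by positivity) u3 hθ0.le).trans ?_
        rw [Real.mul_rpow hK0 (by positivity), ← Real.rpow_natCast, ← Real.rpow_mul hB0.le]
        refine mul_le_mul_of_nonneg_left (Real.rpow_le_rpow_of_exponent_le hB1' ?_) (by positivity)
        rw [hθ, ← mul_div_assoc, div_le_iff₀ (by positivity)]
        nlinarith
      have u5 : (1 : ℝ) ≤ (B : ℝ) ^ (δ1 / 2) := Real.one_le_rpow hB1' (by positivity)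
      have u6 : |(if Squarefree (V t) then (1 : ℝ) else 0)| ≤ 1 := by split_ifs <;> simp
      have u7 := mul_le_mul_of_nonneg_left u4 hK2.le
      refine (abs_sub _ _).trans ?_
      rw [hM]
      nlinarith
    · rw [if_neg hb, ← moeb (V t) h0 Y fun d hd hdv => Nat.le_floor (not_lt.mp fun hlt =>
        hb (Or.inr ⟨d, hd, hlt, hdv⟩))]
      simp [S]
  have e2 : |((R.filter (fun t => Squarefree (V t))).card : ℝ) - ∑ t ∈ R, S t| ≤
      ((1 + K2 * K0 ^ θ) * Kb + Ka) * (B : ℝ) ^ (2 - δ) := by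
    rw [card_filter]
    push_cast
    rw [← sum_sub_distrib]
    refine (abs_sum_le_sum_abs _ _).trans ((sum_le_sum e1).trans ?_)
    rw [sum_add_distrib, ← sum_filter, ← sum_filter, sum_const, sum_const, nsmul_eq_mul,
      nsmul_eq_mul]
    have v1 := hB B hB1 (R.filter bad) fun t ht =>
      ⟨(hbox t (mem_filter.mp ht).1).1, (hbox t (mem_filter.mp ht).1).2, (mem_filter.mp ht).2⟩
    have v2 := hZ B hB1 (R.filter (fun t => V t = 0)) fun t ht =>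
      ⟨(hbox t (mem_filter.mp ht).1).1, (hbox t (mem_filter.mp ht).1).2,
        Or.inl (mem_filter.mp ht).2⟩
    have v3 := pw (2 - δ1) (δ1 / 2) (by linarith)
    have v4 := pw (2 - δ0) η (by linarith)
    calc _ ≤ Kb * (B : ℝ) ^ (2 - δ1) * M + Ka * (B : ℝ) ^ (2 - δ0) * (B : ℝ) ^ η := by gcongr
      _ = (1 + K2 * K0 ^ θ) * Kb * ((B : ℝ) ^ (2 - δ1) * (B : ℝ) ^ (δ1 / 2)) +
          Ka * ((B : ℝ) ^ (2 - δ0) * (B : ℝ) ^ η) := by rw [hM]; ring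
      _ ≤ (1 + K2 * K0 ^ θ) * Kb * (B : ℝ) ^ (2 - δ) + Ka * (B : ℝ) ^ (2 - δ) := by gcongr
      _ = _ := by ring
  have e3 : |∑ t ∈ R, S t - (∑ d ∈ Icc 1 Y, ff F d) * A| ≤ 5 * (B : ℝ) ^ (2 - δ) := by
    have w1 : ∑ t ∈ R, S t = ∑ d ∈ Icc 1 Y, ((moebius d : ℤ) : ℝ) *
        ((R.filter (fun t => ((d ^ 2 : ℕ) : ℤ) ∣ V t)).card : ℝ) := by
      simp only [S, sum_filter]
      rw [sum_comm]
      refine sum_congr rfl fun d _ => ?_
      rw [← sum_filter, sum_const, nsmul_eq_mul, mul_comm]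
      push_cast
      rfl
    rw [w1, sum_mul, ← sum_sub_distrib]
    refine (abs_sum_le_sum_abs _ _).trans ((sum_le_card_nsmul _ _
      (((B : ℝ) ^ η) ^ 4 * (5 * B)) fun d hd => ?_).trans ?_)
    · rw [mem_Icc] at hd
      have w2 := cnt_box F (d ^ 2) (Nat.one_le_pow _ _ hd.1) x0 x1 y0 y1 (2 * B) a2 b2 hx hy
      have w3 : (d : ℝ) ≤ (B : ℝ) ^ η := le_trans (by exact_mod_cast hd.2) hYle
      have w4 : |((moebius d : ℤ) : ℝ)| ≤ 1 := by exact_mod_cast abs_moebius_le_one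
      rw [ff, mul_assoc, ← mul_sub, abs_mul]
      rw [Nat.cast_pow (α := ℝ), ← pow_mul] at w2
      calc _ ≤ 1 * ((d : ℝ) ^ (2 * 2) * (2 * (2 * B) + 1)) :=
            mul_le_mul w4 w2 (abs_nonneg _) zero_le_one
        _ ≤ 1 * (((B : ℝ) ^ η) ^ (2 * 2) * (5 * B)) := by gcongr; linarith
        _ = _ := by ring
    · rw [nsmul_eq_mul, Nat.card_Icc, Nat.add_sub_cancel]
      have w5 := pw (η * 5) 1 (by linarith)
      rw [Real.rpow_one, Real.rpow_mul hB0.le, show (5 : ℝ) = (5 : ℕ) by norm_num,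
        Real.rpow_natCast] at w5
      calc _ ≤ (B : ℝ) ^ η * (((B : ℝ) ^ η) ^ 4 * (5 * B)) := by gcongr
        _ = 5 * (((B : ℝ) ^ η) ^ 5 * B) := by ring
        _ ≤ _ := by gcongr
  have e4 : |(∑ d ∈ Icc 1 Y, ff F d) * A - c * A| ≤ 4 * K3 * (B : ℝ) ^ (2 - δ) := by
    have z1 : ((Y : ℝ) + 1) ^ (-(1 / 2) : ℝ) ≤ (B : ℝ) ^ (η * -(1 / 2)) := by
      rw [Real.rpow_mul hB0.le]
      exact Real.rpow_le_rpow_of_nonpos (by positivity) hYlt (by norm_num)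
    have z2 := pw (η * -(1 / 2)) 2 (by linarith)
    have z3 : A ≤ 4 * (B : ℝ) ^ (2 : ℝ) := by
      rw [Real.rpow_two, hA]
      calc _ ≤ (2 * (B : ℝ)) * (2 * B) := by gcongr
        _ = _ := by ring
    have z4 : 0 ≤ A := by positivity
    rw [← sub_mul, abs_mul, abs_of_nonneg z4]
    calc _ ≤ K3 * (B : ℝ) ^ (η * -(1 / 2)) * (4 * (B : ℝ) ^ (2 : ℝ)) :=
          mul_le_mul ((htail Y).trans (by gcongr)) z3 z4 (by positivity)
      _ = 4 * K3 * ((B : ℝ) ^ (η * -(1 / 2)) * (B : ℝ) ^ (2 : ℝ)) := by ring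
      _ ≤ _ := by gcongr
  have e5 := abs_sub_le ((R.filter (fun t => Squarefree (V t))).card : ℝ) (∑ t ∈ R, S t) (c * A)
  have e6 := abs_sub_le (∑ t ∈ R, S t) ((∑ d ∈ Icc 1 Y, ff F d) * A) (c * A)
  have e7 : |((R.filter (fun t => Squarefree (V t))).card : ℝ) - c * A| ≤
      ((1 + K2 * K0 ^ θ) * Kb + Ka + 5 + 4 * K3) * (B : ℝ) ^ (2 - δ) := by linarith
  convert e7

end Pool.Agent.MP_542436_nt.Sq
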