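import Pool.Agent.MP_542436_nt.Sq.Box
import Pool.Agent.MP_542436_nt.Sq.Sieve

set_option autoImplicit false

namespace Pool.Agent.MP_542436_nt.Sq

open H5 Finset

theorem mul_rad_le (V : ℤ) (hV : V ≠ 0) (d : ℕ) (hd : (d : ℤ) ^ 2 ∣ V) :
    d * rad V ≤ V.natAbs := by
  have h : d ^ 2 ∣ V.natAbs := Int.natCast_dvd.mp (by exact_mod_cast hd)
  obtain ⟨e, he⟩ := h
  have h0 := Int.natAbs_ne_zero.mpr hV
  have h1 : rad V ∣ d * e := by
    refine prod_primes_dvd _ (fun p hp => (Nat.prime_of_mem_primeFactors hp).prime) fun p hp => ?_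
    have h2 := Nat.dvd_of_mem_primeFactors hp
    rw [he, sq, mul_assoc] at h2
    rcases ((Nat.prime_of_mem_primeFactors hp).dvd_mul).mp h2 with h | h
    · exact h.mul_right e
    · exact h
  rw [he, sq, mul_assoc] at h0 ⊢
  exact Nat.mul_le_mul_left _ (Nat.le_of_dvd (Nat.pos_of_ne_zero (right_ne_zero_of_mul h0)) h1)

theorem Fm.evq {n : ℕ} (P : Fm n) (hq : ∀ i, P.q i = 0) (i : Fin (n + 1)) (s t : ℤ × ℤ) :
    ev (P.F i) s t = ev (P.F i) (1, 0) t := by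
  rw [ev_pure _ _ (hq i ▸ P.hom i) s, ev_pure _ _ (hq i ▸ P.hom i) (1, 0)]

theorem tau_mem {N : ℤ} {B : ℕ} (h : N.natAbs + 1 ≤ B) : (N, (1 : ℤ)) ∈ box B := by
  rw [mem_box]
  refine ⟨?_, ?_, by simp⟩
  · rw [← Int.natCast_natAbs]; simp only; omega
  · simp only [abs_one]; omega

theorem Fm.prim {n : ℕ} (H : All7) (P : Fm n) (hq : ∀ i, P.q i = 0) (η : ℝ) (hη : 0 < η) :
    ∃ δ : ℝ, 0 < δ ∧ ∃ B0 : ℕ, ∀ B : ℕ, B0 ≤ B → ∃ T : Finset (ℤ × ℤ),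
      (T.card : ℝ) ≤ (B : ℝ) ^ (2 - δ) ∧ ∀ t ∈ box B, t ∉ T → ∏ i, ev (P.F i) (1, 0) t ≠ 0 ∧
        ∀ d : ℕ, (d : ℤ) ^ 2 ∣ ∏ i, ev (P.F i) (1, 0) t → (d : ℝ) ≤ (B : ℝ) ^ η := by
  obtain ⟨Z, hZ⟩ := P.tdir H
  obtain ⟨N, hNZ, -⟩ := P.exists_tau H Z
  have hn : (0 : ℝ) < n + 1 := by positivity
  obtain ⟨ε, hε, hε1, hεη⟩ : ∃ ε : ℝ, 0 < ε ∧ ε ≤ 1 / 1000 ∧ 5 * ε * (n + 1) ≤ η := by
    refine ⟨min (1 / 1000) (η / (5 * (n + 1))), by positivity, min_le_left _ _, ?_⟩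
    have h := min_le_right (1 / 1000) (η / (5 * ((n : ℝ) + 1)))
    rw [le_div_iff₀ (by positivity)] at h
    linarith
  obtain ⟨δ, hδ, B1, h⟩ := hZ ε hε hε1
  obtain ⟨K, -, hK⟩ := P.bound H
  obtain ⟨B2, hB2⟩ := ev_pow K ε hε
  refine ⟨δ, hδ, max (max B1 B2) (N.natAbs + 1), fun B hB => ?_⟩
  obtain ⟨T, D, hT, -, hTg⟩ := h B (by omega) _ (tau_mem (by omega)) hNZ
    (fun i => by rw [P.evq hq]; exact P.nz i)
  refine ⟨T, hT, fun t ht htT => ?_⟩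
  obtain ⟨hne, g, g1, g2, g3, -, g5⟩ := hTg t ht htT
  simp only [P.evq hq _ (N, 1)] at hne g2 g5
  have hV := prod_ne_zero_iff.mpr fun i (_ : i ∈ univ) => hne i
  refine ⟨hV, fun d hd => ?_⟩
  have hB1 : (1 : ℝ) ≤ B := by exact_mod_cast (show 1 ≤ B by omega)
  have hB0 : (0 : ℝ) < B := by linarith
  have h1 : ((∏ i, g i : ℕ) : ℝ) ≤ rad (∏ i, ev (P.F i) (1, 0) t) := by
    exact_mod_cast prod_le_rad g _ hV g1 (fun i => (g2 i).trans (dvd_prod_of_mem _ (mem_univ i))) g3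
  have h2 : (d : ℝ) * rad (∏ i, ev (P.F i) (1, 0) t) ≤ |((∏ i, ev (P.F i) (1, 0) t : ℤ) : ℝ)| := by
    rw [← Int.cast_abs, ← Nat.cast_natAbs]
    exact_mod_cast mul_rad_le _ hV d hd
  have h3 : ∀ i, |(ev (P.F i) (1, 0) t : ℝ)| ≤ (B : ℝ) ^ (5 * ε) * g i := by
    intro i
    have a1 : |(ev (P.F i) (1, 0) t : ℝ)| ≤ K * (B : ℝ) ^ P.r i := by
      have := (hK i 1 (1, 0) (by simp) (by simp)).2 B t (mem_box.mp ht).1 (mem_box.mp ht).2.1
      rw [Nat.cast_one, one_pow, mul_one] at this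
      exact_mod_cast this
    have a2 : (B : ℝ) ^ ((P.r i : ℝ) - 4 * ε) ≤ g i := by
      by_cases hi : P.r i = 0
      · refine le_trans (Real.rpow_le_one_of_one_le_of_nonpos hB1 (by rw [hi]; push_cast; linarith)) ?_
        exact_mod_cast Nat.pos_of_ne_zero (g1 i).ne_zero
      · rcases g5 i (by omega) with h | ⟨h, -⟩
        · exact le_trans (le_mul_of_one_le_left (by positivity) (one_le_abs_cast (P.nz i))) h
        · have := hq i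
          omega
    have a3 := hB2 B (by omega)
    calc _ ≤ (B : ℝ) ^ ε * (B : ℝ) ^ P.r i := a1.trans (by gcongr)
      _ = (B : ℝ) ^ (5 * ε) * (B : ℝ) ^ ((P.r i : ℝ) - 4 * ε) := by
          rw [← Real.rpow_natCast, ← Real.rpow_add hB0, ← Real.rpow_add hB0]; congr 1; ring
      _ ≤ _ := by gcongr
  have h4 : |((∏ i, ev (P.F i) (1, 0) t : ℤ) : ℝ)| ≤ (B : ℝ) ^ η * ((∏ i, g i : ℕ) : ℝ) := by
    push_cast
    rw [abs_prod]
    refine (prod_le_prod (fun _ _ => abs_nonneg _) fun i _ => h3 i).trans ?_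
    rw [prod_mul_distrib, prod_const, card_univ, Fintype.card_fin, ← Real.rpow_natCast,
      ← Real.rpow_mul hB0.le]
    exact mul_le_mul_of_nonneg_right (Real.rpow_le_rpow_of_exponent_le hB1 (by push_cast; linarith))
      (by positivity)
  have h5 : (0 : ℝ) < rad (∏ i, ev (P.F i) (1, 0) t) := by exact_mod_cast rad_pos _
  exact le_of_mul_le_mul_right (h2.trans (h4.trans (by gcongr))) h5

theorem Fm.loc {n : ℕ} (H : All7) (P : Fm n) (hq : ∀ i, P.q i = 0) :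
    ∃ D : ℤ, D ≠ 0 ∧ ∀ p : ℕ, p.Prime → ¬ (p : ℤ) ∣ D → ∃ Xs : Finset ℤ, Xs.card ≤ ∑ i, P.r i ∧
      ∀ t : ℤ × ℤ, Int.gcd t.1 t.2 = 1 → (p : ℤ) ^ 2 ∣ ∏ i, ev (P.F i) (1, 0) t →
        ∃ x ∈ Xs, (p : ℤ) ^ 2 ∣ t.1 - x * t.2 := by
  classical
  obtain ⟨Z, c, R, B1, -, hdir⟩ := P.dir H
  obtain ⟨N, hNZ, -⟩ := P.exists_tau H Z
  obtain ⟨D, hD0, hA, hD1, hD2⟩ := hdir _ hNZ (fun i => by rw [P.evq hq]; exact P.nz i)
    (max B1 (N.natAbs + 1)) (le_max_left _ _) (tau_mem (le_max_right _ _))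
  refine ⟨D, hD0, fun p hp hpD => ?_⟩
  have hpz : Prime (p : ℤ) := Nat.prime_iff_prime_int.mp hp
  have hhv := fun i => (H.basic (P.F i) (P.q i) (P.r i) (P.hom i)).2.1 (N, 1)
  have hdeg := fun i => (H.basic (P.F i) (P.q i) (P.r i) (P.hom i)).1 (N, 1)
  have h1 : ∀ i, ∃ Xs : Finset ℤ, Xs.card ≤ P.r i ∧ ∀ t : ℤ × ℤ, Int.gcd t.1 t.2 = 1 →
      1 ≤ P.r i → (p : ℤ) ^ 2 ∣ ev (P.F i) (N, 1) t → ∃ x ∈ Xs, (p : ℤ) ^ 2 ∣ t.1 - x * t.2 := by
    intro i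
    by_cases hi : 1 ≤ P.r i
    · obtain ⟨Xs, a1, a2⟩ := H87.cls (P.r i) _ D (p ^ 2) (pow_pos hp.pos 2) (hA i hi).deg
        (hA i hi).lc_dvd (hA i hi).sep (by
          push_cast
          exact ((Prime.coprime_iff_not_dvd hpz).mpr hpD).pow_left)
      rw [Nat.primeFactors_prime_pow two_ne_zero hp, card_singleton, pow_one] at a1
      refine ⟨Xs, a1, fun t ht _ h => ?_⟩
      exact_mod_cast a2 t ht (by rw [hhv]; exact_mod_cast h)
    · exact ⟨∅, by simp, fun _ _ h => absurd h hi⟩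
  choose Xs hX1 hX2 using h1
  refine ⟨univ.biUnion Xs, card_biUnion_le.trans (sum_le_sum fun i _ => hX1 i), fun t ht h => ?_⟩
  simp only [← P.evq hq _ (N, 1)] at h
  obtain ⟨i, -, hi⟩ := hpz.exists_mem_finset_dvd ((dvd_pow_self _ two_ne_zero).trans h)
  have hr : 1 ≤ P.r i := by
    by_contra hc
    rw [P.pure H i (by omega)] at hi
    exact hpD (hi.trans (hD1 i))
  rw [← mul_prod_erase univ _ (mem_univ i)] at h
  have hc : IsCoprime ((p : ℤ) ^ 2) (∏ j ∈ univ.erase i, ev (P.F j) (N, 1) t) := by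
    refine (IsCoprime.prod_right fun j hj => (Prime.coprime_iff_not_dvd hpz).mpr
      fun hd => hpD ?_).pow_left
    exact cop_pair _ _ _ _ (hdeg i) (hdeg j) D (hA i hr).lc_dvd
      (hD2 i j (ne_of_mem_erase hj).symm hr) t ht p hp (by rwa [hhv]) (by rwa [hhv])
  obtain ⟨x, hx, hd⟩ := hX2 i t ht hr (hc.dvd_of_dvd_mul_right h)
  exact ⟨x, mem_biUnion.mpr ⟨i, mem_univ _, hx⟩, hd⟩

theorem hv_smul (g : Polynomial ℤ) (r : ℕ) (c : ℤ) (t : ℤ × ℤ) :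
    hv g r (c * t.1, c * t.2) = c ^ r * hv g r t := by
  rw [hv, hv, mul_sum]
  refine sum_congr rfl fun k hk => ?_
  obtain ⟨j, rfl⟩ := Nat.exists_eq_add_of_le (Nat.lt_succ_iff.mp (mem_range.mp hk))
  rw [Nat.add_sub_cancel_left]
  ring

theorem exists_prim (a b : ℤ) (h : Int.gcd a b ≠ 0) :
    ∃ t : ℤ × ℤ, Int.gcd t.1 t.2 = 1 ∧ a = Int.gcd a b * t.1 ∧ b = Int.gcd a b * t.2 := by
  obtain ⟨x, y, h1, h2, h3⟩ := Int.exists_gcd_one (Nat.pos_of_ne_zero h)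
  exact ⟨(x, y), h1, by rw [mul_comm]; exact h2, by rw [mul_comm]; exact h3⟩

theorem ev_inr (F : MvPolynomial (Fin 2) ℤ) (s t : ℤ × ℤ) :
    ev (MvPolynomial.rename Sum.inr F) s t = MvPolynomial.eval ![t.1, t.2] F := by
  rw [ev, MvPolynomial.eval_rename, Sum.elim_comp_inr]

theorem hom_inr {F : MvPolynomial (Fin 2) ℤ} {d : ℕ} (h : F.IsHomogeneous d) :
    BiHom (MvPolynomial.rename Sum.inr F) 0 d := by
  intro m hm
  obtain ⟨u, rfl, hu⟩ := MvPolynomial.coeff_rename_ne_zero _ _ _ hm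
  have h1 := h hu
  rw [Finsupp.weight_apply, Finsupp.sum_fintype _ _ (by simp), Fin.sum_univ_two] at h1
  rw [Finsupp.weight_apply, Finsupp.sum_mapDomain_index (by simp) (fun _ _ _ => add_smul _ _ _),
    Finsupp.sum_fintype _ _ (by simp), Fin.sum_univ_two]
  simpa [wt] using h1

theorem irr_inr {F : MvPolynomial (Fin 2) ℤ} (h : Irreducible F) :
    Irreducible (MvPolynomial.rename (Sum.inr : Fin 2 → Fin 2 ⊕ Fin 2) F) := by
  have h1 := (MvPolynomial.prime_C_iff (Fin 2)).mpr h.prime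
  have h2 := DFunLike.congr_fun (MvPolynomial.sumAlgEquiv_comp_rename_inr ℤ (Fin 2) (Fin 2)) F
  rw [← MulEquiv.irreducible_iff (MvPolynomial.sumAlgEquiv ℤ (Fin 2) (Fin 2))]
  exact h2 ▸ h1.irreducible

theorem exists_fm (n : ℕ) (F : Fin (n + 1) → MvPolynomial (Fin 2) ℤ) (d : Fin (n + 1) → ℕ)
    (hirr : ∀ i, Irreducible (F i)) (hne : ∀ i j, i ≠ j → ¬ Associated (F i) (F j))
    (hhom : ∀ i, (F i).IsHomogeneous (d i)) (hd : ∀ i, d i ≤ 7) :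
    ∃ (P : Fm n) (b : ℤ), (∀ i, P.q i = 0) ∧ ∀ (c : ℤ) (t : ℤ × ℤ),
      MvPolynomial.eval ![c * t.1, c * t.2] (∏ i, F i) =
        c ^ (∑ i, d i) * ∏ i, ev (P.F i) (1, 0) (shr (-b) t) := by
  obtain ⟨a, b, hab⟩ := all.sym.2.2 (n + 1) _ (fun _ => 0) d (fun i => (irr_inr (hirr i)).ne_zero)
    (fun i => hom_inr (hhom i))
  obtain ⟨sh, h1, h2⟩ := all.sym.2.1 a b
  refine ⟨⟨fun i => sh (MvPolynomial.rename Sum.inr (F i)), fun _ => 0, d,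
    fun i => (irr_inr (hirr i)).map sh, fun i j hij h => hne i j hij ?_,
    fun i => h2 _ _ _ (hom_inr (hhom i)), fun i => Or.inr (Or.inl ⟨rfl, hd i⟩),
    fun i => by rw [h1]; simpa using hab i⟩, b, fun _ => rfl, fun c t => ?_⟩
  · have := (h.map sh.symm).map (MvPolynomial.aeval (Sum.elim (fun _ => 0) MvPolynomial.X) :
      MP →ₐ[ℤ] MvPolynomial (Fin 2) ℤ)
    simpa only [AlgEquiv.symm_apply_apply, MvPolynomial.aeval_rename, Sum.elim_comp_inr,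
      MvPolynomial.aeval_X_left_apply] using this
  · rw [map_prod, ← prod_pow_eq_pow_sum, ← prod_mul_distrib]
    refine prod_congr rfl fun i _ => ?_
    have e : ((shr (-b) t).1, (shr (-b) t).2 + b * (shr (-b) t).1) = t := shr_shr b t
    simp only [h1, e]
    rw [← ev_inr (F i) (1, 0) (c * t.1, c * t.2), ev_pure _ _ (hom_inr (hhom i)),
      ev_pure _ _ (hom_inr (hhom i)), hv_smul]

end Pool.Agent.MP_542436_nt.Sq
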